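import Pool.Agent.Helper42.SLC.Stmt

/-!
# Project SLD: the statement
-/

namespace Pool.Agent.Helper17.SLD

open Pool.Agent.Helper51.SigLeo Pool.Agent.Helper42.SLC NumberField Module

section

variable {F E K H Ω : Type*} [Field F] [Field E] [Algebra F E] [Field K] [Field H]
  [Algebra K H] [Field Ω]

/-- For subfields `E ⊆ H` of `Ω` (embedded by `a`, `b`), `E` Galois over `F`, `H` Galois over `K`,
a character `ψ` of `Gal(E/F)`, embeddings `ι_∞`, `ι_p` of `Ω` in `ℂ` and `k = ℂ_p` and a CM type `S`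
of `K`: the `Σ`-Leopoldt statement for the character `χ` of `Gal(H/K)` which is the restriction of
`ψ` (`χ(h) = ψ(g)` if `h` extends `g`). For Iwasawa's logarithm `L` the map `log_{Σ,p}` is injective
on `e_χ(k ⊗ (𝓞_H)ˣ)`. -/
def HoldsForAt (a : E →+* Ω) (b : H →+* Ω) (K : Type*) [Field K] [Algebra K H] (p : ℕ) {k : Type*}
    [NormedField k] (ψ : (E ≃ₐ[F] E) →* kˣ) (ιinf : Ω →+* ℂ) (ιp : Ω →+* k)
    (S : Set (K →+* ℂ)) : Prop :=
  ∀ (χ : (H ≃ₐ[K] H) →* kˣ) (L : IwasawaLog p k), (∀ h g, Extends a b h g → χ h = ψ g) →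
    InjectiveOn (finrank K H) χ unitsHom (logSigma ιinf ιp S L)

end

section

variable {F Ω : Type*} [Field F] [Field Ω] [Algebra F Ω] (E K : IntermediateField F Ω)

/-- The `Σ`-Leopoldt statement for `K`, the restriction `χ` of the character `ψ` of `Gal(E/F)` to
`Gal(KE/K)`, the embeddings `ι_∞`, `ι_p` of `Ω` in `ℂ` and `k = ℂ_p` and the CM type `S` of `K`. -/
def HoldsAt (p : ℕ) {k : Type*} [NormedField k] (ψ : (E ≃ₐ[F] E) →* kˣ) (ιinf : Ω →+* ℂ)
    (ιp : Ω →+* k) (S : Set (K →+* ℂ)) : Prop :=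
  HoldsForAt E.val.toRingHom (Comp E K).val.toRingHom K p ψ ιinf ιp S

/-- `K` is a CM field which is quadratic over `F`. -/
def QuadraticCM [CharZero Ω] : Prop := finrank F K = 2 ∧ IsCMField K

end

end Pool.Agent.Helper17.SLD
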