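import Pool.Agent.Helper17.SLD.Goals
import Pool.Agent.Helper17.SLD.Stmt
import Pool.Agent.Helper42.SLC.Concrete

/-!
# Project SLD: assembly, the abstract part
-/

namespace Pool.Agent.Helper17.SLD

open Pool.Agent.Helper17.SL Pool.Agent.Helper42.SLC
open Pool.Agent.Helper51.SigLeo Pool.Agent.Helper51.SixExp NumberField Module TensorProduct

set_option linter.unusedSectionVars false

universe u v w x y z

/-- A frame. -/
theorem exists_frame {F : Type u} [Field F] [NumberField F] {N : Type v} [Field N] [NumberField N]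
    [Algebra F N] {Ω : Type w} [Field Ω] [CharZero Ω] [IsAlgClosed Ω] {n : ℕ}
    (hn : finrank ℚ F = n) :
    ∃ τ : Fin n → N →+* Ω, Function.Injective (fun i ↦ (τ i).comp (algebraMap F N)) := by
  have hcard : Fintype.card (F →+* Ω) = n := by rw [NumberField.Embeddings.card, hn]
  let e : (F →+* Ω) ≃ Fin n := Fintype.equivFinOfCardEq hcard
  have hex : ∀ s : F →+* Ω, ∃ σ : N →+* Ω, σ.comp (algebraMap F N) = s := fun s ↦
    exists_extend_embedding s
  choose ext hext using hex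
  refine ⟨fun i ↦ ext (e.symm i), fun i j hij ↦ ?_⟩
  apply e.symm.injective
  rw [← hext (e.symm i), ← hext (e.symm j)]
  exact hij

section

variable {F : Type u} {N : Type v} [Field F] [NumberField F] [Field N] [NumberField N]
  [Algebra F N] [IsGalois F N] [Fintype (N ≃ₐ[F] N)] {p : ℕ} [Fact p.Prime]
  {k : Type w} [NormedField k] [NormedAlgebra ℚ_[p] k] [IsAlgClosed k] {Λ : IwasawaLog p k}
  {n : ℕ}

/-- Change of the frame for a relation. -/
theorem RelAt.change (hFRAME : S_FRAME.{u, v, w}) {K : Type*} [Field K] [Algebra K N]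
    {θ θ' : (N ≃ₐ[F] N) →* kˣ} (ht : Twist K θ θ') {σ σ' : Fin n → N →+* k}
    (hn : finrank ℚ F = n) (hσ : Function.Injective (fun m ↦ (σ m).comp (algebraMap F N)))
    (hσ' : Function.Injective (fun m ↦ (σ' m).comp (algebraMap F N)))
    (h : RelAt Λ θ θ' σ') : RelAt Λ θ θ' σ := by
  classical
  obtain ⟨π, g, hg⟩ := hFRAME F N p k Λ n σ σ' hn hσ hσ'
  obtain ⟨c, e, hc0, he, h0, h1⟩ := h
  have hsg : ∀ m, ∃ s : k, (s = 1 ∨ s = -1) ∧
      ((θ' (g m) : kˣ) : k) = s * ((θ (g m) : kˣ) : k) := by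
    intro m
    by_cases hm : ∀ x : K, g m (algebraMap K N x) = algebraMap K N x
    · exact ⟨1, Or.inl rfl, by rw [ht.1 _ hm, one_mul]⟩
    · push Not at hm
      exact ⟨-1, Or.inr rfl, by rw [ht.2 _ hm, Units.val_neg, neg_one_mul]⟩
  choose s hs hs' using hsg
  refine ⟨fun m ↦ c (π m) * ((θ (g m) : kˣ) : k), fun m ↦ e (π m) * s m, ?_, ?_, ?_, ?_⟩
  · obtain ⟨m, hm⟩ := Function.ne_iff.mp hc0
    intro h
    have h2 := congrFun h (π.symm m)
    simp only [Equiv.apply_symm_apply, Pi.zero_apply] at h2 hm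
    rcases mul_eq_zero.mp h2 with h3 | h3
    · exact hm h3
    · exact (Units.ne_zero _) h3
  · intro m
    show e (π m) * s m = 1 ∨ e (π m) * s m = -1
    rcases he (π m) with h2 | h2 <;> rcases hs m with h3 | h3 <;> rw [h2, h3]
    · left; ring
    · right; ring
    · right; ring
    · left; ring
  · intro v
    rw [← h0 v, ← Equiv.sum_comp π (fun m ↦ c m * vec Λ θ σ' v m)]
    refine Finset.sum_congr rfl fun m _ ↦ ?_
    rw [hg]; ring
  · intro v
    rw [← h1 v, ← Equiv.sum_comp π (fun m ↦ c m * (e m * vec Λ θ' σ' v m))]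
    refine Finset.sum_congr rfl fun m _ ↦ ?_
    rw [hg, hs' m]; ring

/-- Change of the frame for the rank. -/
theorem rank_change (hFRAME : S_FRAME.{u, v, w}) {θ : (N ≃ₐ[F] N) →* kˣ}
    {σ σ' : Fin n → N →+* k} (hn : finrank ℚ F = n)
    (hσ : Function.Injective (fun m ↦ (σ m).comp (algebraMap F N)))
    (hσ' : Function.Injective (fun m ↦ (σ' m).comp (algebraMap F N))) {J : ℕ}
    {v : Fin J → Additive (𝓞 N)ˣ} (h : LinearIndependent k (fun j ↦ vec Λ θ σ' (v j))) :
    LinearIndependent k (fun j ↦ vec Λ θ σ (v j)) := by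
  classical
  obtain ⟨π, g, hg⟩ := hFRAME F N p k Λ n σ σ' hn hσ hσ'
  rw [Fintype.linearIndependent_iff] at h ⊢
  intro x hx
  refine h x ?_
  funext m
  obtain ⟨m', rfl⟩ := π.surjective m
  have h1 := congrFun hx m'
  rw [Finset.sum_apply, Pi.zero_apply] at h1 ⊢
  simp only [Pi.smul_apply, smul_eq_mul] at h1 ⊢
  have h2 : ∀ j, x j * vec Λ θ σ' (v j) (π m') =
      ((θ (g m') : kˣ) : k) * (x j * vec Λ θ σ (v j) m') := fun j ↦ by rw [hg]; ring
  simp only [h2]
  rw [← Finset.mul_sum, h1, mul_zero]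

end

section

variable {F : Type u} {K : Type v} {H : Type w} {N : Type x} {Ω : Type y} [Field F]
  [NumberField F] [IsTotallyReal F] [Field K] [NumberField K] [IsTotallyComplex K]
  [Field H] [NumberField H] [Field N] [NumberField N] [Algebra F K] [Algebra K H] [Algebra H N]
  [Algebra F N] [Algebra K N] [IsScalarTower F K N] [IsScalarTower K H N] [IsGalois F N]
  [IsGalois K H] [Fintype (N ≃ₐ[F] N)] [Field Ω] [CharZero Ω] [IsAlgClosed Ω]

/-- The failure gives the relation in every frame. -/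
theorem relAt_of_fail (hRX : S_RX.{u, v, w, x, y, z}) (hFRAME : S_FRAME.{u, x, z}) (p : ℕ)
    [Fact p.Prime] (k : Type z) [NormedField k] [NormedAlgebra ℚ_[p] k] [IsUltrametricDist k]
    [CompleteSpace k] [IsAlgClosed k] (ιinf : Ω →+* ℂ) (ιp : Ω →+* k) (S : Set (K →+* ℂ))
    (χ : (H ≃ₐ[K] H) →* kˣ) (Λ : IwasawaLog p k) (θ θ' : (N ≃ₐ[F] N) →* kˣ) (n : ℕ)
    (hK : finrank F K = 2) (hn : finrank ℚ F = n) (hS : IsCMType S) (h0 : Compat χ θ)
    (h1 : Compat χ θ') (ht : Twist K θ θ')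
    (hf : ¬ InjectiveOn (finrank K H) χ unitsHom (logSigma ιinf ιp S Λ))
    (σ : Fin n → N →+* k) (hσ : Function.Injective (fun m ↦ (σ m).comp (algebraMap F N))) :
    RelAt Λ θ θ' σ := by
  classical
  obtain ⟨τ, hτ⟩ := exists_frame (F := F) (N := N) (Ω := Ω) hn
  have hτ' : Function.Injective (fun m ↦ (ιp.comp (τ m)).comp (algebraMap F N)) := by
    intro i j hij
    apply hτ
    ext y
    apply ιp.injective
    exact RingHom.congr_fun hij y
  obtain ⟨c, hc0, hc1, hc2⟩ := hRX F K H N Ω p k ιinf ιp S χ Λ θ θ' n τ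
    (fun i ↦ if ιinf.comp ((τ i).comp (algebraMap K N)) ∈ S then 1 else -1) hK hn hS h0 h1 ht hf hτ
    (fun i ↦ ⟨fun h ↦ if_pos h, fun h ↦ if_neg h⟩)
  refine RelAt.change hFRAME ht hn hσ hτ' ⟨c, _, hc0, fun m ↦ ?_, hc1, hc2⟩
  show (if _ then (1 : k) else -1) = 1 ∨ (if _ then (1 : k) else -1) = -1
  split_ifs
  · exact Or.inl rfl
  · exact Or.inr rfl

/-- The character `χ` is not trivial. -/
theorem chi_ne_one {k : Type z} [Field k] [CharZero k] (χ : (H ≃ₐ[K] H) →* kˣ)
    (θ : (N ≃ₐ[F] N) →* kˣ) (s : F →+* ℂ) (h0 : Compat χ θ) (hodd : OddAt s θ)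
    (hGA7 : S_GA7.{u, x, 0}) (hK : finrank F K = 2) (hn : 2 ≤ finrank ℚ F) : χ ≠ 1 := by
  classical
  intro hχ
  have hfdF : FiniteDimensional F N := FiniteDimensional.right ℚ F N
  -- another embedding
  obtain ⟨s', hs'⟩ : ∃ s' : F →+* ℂ, s' ≠ s := by
    have hcard : Fintype.card (F →+* ℂ) = finrank ℚ F := NumberField.Embeddings.card F ℂ
    have hnt : Nontrivial (F →+* ℂ) := by
      rw [← Fintype.one_lt_card_iff_nontrivial, hcard]; omega
    exact exists_ne s
  obtain ⟨ρ, hρ⟩ := exists_extend_embedding (H := N) s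
  obtain ⟨ρ', hρ'⟩ := exists_extend_embedding (H := N) s'
  obtain ⟨c, hc⟩ := hGA7 F N ℂ ρ (ComplexEmbedding.conjugate ρ) (by
    rw [ComplexEmbedding.conjugate_comp, hρ, conjugate_real])
  obtain ⟨c', hc'⟩ := hGA7 F N ℂ ρ' (ComplexEmbedding.conjugate ρ') (by
    rw [ComplexEmbedding.conjugate_comp, hρ', conjugate_real])
  have hθc : θ c = -1 := (hodd ρ c hc).1 hρ
  have hθc' : θ c' = 1 := (hodd ρ' c' hc').2 (by rw [hρ']; exact hs')
  -- `c * c'` is trivial on `K`
  have hGK : ∃ g : N ≃ₐ[K] N, g.restrictScalars F = c * c' := by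
    have hq : Algebra.IsQuadraticExtension F K := ⟨hK⟩
    have hG : IsGalois F K := inferInstance
    have hfd : FiniteDimensional F K := FiniteDimensional.of_finrank_pos (by omega)
    have hcard : Nat.card (K ≃ₐ[F] K) = 2 := by rw [IsGalois.card_aut_eq_finrank, hK]
    have hfin : Finite (K ≃ₐ[F] K) := Nat.finite_of_card_ne_zero (by omega)
    have : Fintype (K ≃ₐ[F] K) := Fintype.ofFinite _
    have huniq : ∀ a b : K ≃ₐ[F] K, a ≠ 1 → b ≠ 1 → a = b := by
      intro a b ha hb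
      by_contra hab
      have h1 : ({1, a, b} : Finset (K ≃ₐ[F] K)).card ≤ Fintype.card (K ≃ₐ[F] K) :=
        Finset.card_le_univ _
      rw [Finset.card_eq_three.mpr ⟨1, a, b, ha.symm, hb.symm, hab, rfl⟩,
        ← Nat.card_eq_fintype_card, hcard] at h1
      omega
    have hmoved : ∀ (ρ : N →+* ℂ) (c : N ≃ₐ[F] N),
        ComplexEmbedding.conjugate ρ = ρ.comp (c : N →+* N) →
        AlgEquiv.restrictNormalHom K c ≠ 1 := by
      intro ρ c hc h1
      obtain ⟨y, hy⟩ := exists_moved (K := K) ρ c hc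
      apply hy
      have h2 := AlgEquiv.restrictNormal_commutes c K y
      have h3 : c.restrictNormal K y = y := AlgEquiv.congr_fun h1 y
      rw [← h2, h3]
    have h1 : AlgEquiv.restrictNormalHom K (c * c') = 1 := by
      rw [map_mul, huniq _ _ (hmoved ρ c hc) (hmoved ρ' c' hc')]
      have h4 : AlgEquiv.restrictNormalHom K (c' * c') = 1 := by
        have h5 : c' * c' = 1 := by
          ext y
          apply ρ'.injective
          have h6 : ∀ z, star (ρ' z) = ρ' (c' z) := fun z ↦ RingHom.congr_fun hc' z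
          show ρ' (c' (c' y)) = ρ' y
          rw [← h6, ← h6, star_star]
        rw [h5, map_one]
      rw [← map_mul, h4]
    refine ⟨AlgEquiv.ofRingEquiv (f := ((c * c' : N ≃ₐ[F] N) : N ≃+* N)) fun y ↦ ?_, ?_⟩
    · show (c * c') (algebraMap K N y) = algebraMap K N y
      have h2 := AlgEquiv.restrictNormal_commutes (c * c') K y
      have h3 : (c * c').restrictNormal K y = y := AlgEquiv.congr_fun h1 y
      rw [← h2, h3]
    · ext y
      rfl
  obtain ⟨g, hg⟩ := hGK
  have hGN : IsGalois K N := IsGalois.tower_top_of_isGalois F K N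
  have h1 := h0 (g.restrictScalars F) (AlgEquiv.restrictNormalHom H g) fun y ↦
    (AlgEquiv.restrictNormal_commutes g H y).symm
  rw [hg, hχ, map_mul, hθc, hθc', mul_one] at h1
  have h2 := congrArg (fun z : kˣ ↦ (z : k)) h1
  have h3 : (-1 : k) = 1 := h2
  have h4 : (2 : k) = 0 := by linear_combination -h3
  exact two_ne_zero h4

end

end Pool.Agent.Helper17.SLD
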