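import Pool.Agent.Helper17.SLD.Abs

/-!
# Project SLD: assembly, the concrete part
-/

namespace Pool.Agent.Helper17.SLD

open Pool.Agent.Helper17.SL Pool.Agent.Helper42.SLC
open Pool.Agent.Helper51.SigLeo Pool.Agent.Helper51.SixExp NumberField Module TensorProduct

set_option linter.unusedSectionVars false
set_option linter.style.haveILetI false

universe u v w x y z

section alg

variable {F : Type u} {Ω : Type w} [Field F] [Field Ω] [Algebra F Ω]

/-- The inclusion as an algebra structure. -/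
@[reducible] noncomputable def algIn {K N : IntermediateField F Ω} (h : K ≤ N) : Algebra K N :=
  (IntermediateField.inclusion h).toRingHom.toAlgebra

/-- The inclusion of `KE` as an algebra structure. -/
@[reducible] noncomputable def algComp {E K N : IntermediateField F Ω} (hE : E ≤ N) (hK : K ≤ N) :
    Algebra (Comp E K) N :=
  RingHom.toAlgebra
    { toFun := fun x ↦ ⟨(x : Ω), comp_le E K hE hK x⟩
      map_one' := rfl
      map_mul' := fun _ _ ↦ rfl
      map_zero' := rfl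
      map_add' := fun _ _ ↦ rfl }

/-- Restriction of automorphisms to a normal subfield. -/
noncomputable def resE {E N : IntermediateField F Ω} [Normal F E] (h : E ≤ N) :
    (N ≃ₐ[F] N) →* (E ≃ₐ[F] E) :=
  letI : Algebra E N := algIn h
  haveI : IsScalarTower F E N := IsScalarTower.of_algebraMap_eq fun _ ↦ rfl
  AlgEquiv.restrictNormalHom E

theorem resE_spec {E N : IntermediateField F Ω} [Normal F E] (h : E ≤ N) (g : N ≃ₐ[F] N) (x : E) :
    ((resE h g x : E) : Ω) = ((g (IntermediateField.inclusion h x) : N) : Ω) := by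
  letI : Algebra E N := algIn h
  haveI : IsScalarTower F E N := IsScalarTower.of_algebraMap_eq fun _ ↦ rfl
  exact congrArg (fun z : N ↦ (z : Ω)) (AlgEquiv.restrictNormal_commutes g E x)

/-- The sign character of a quadratic subfield. -/
def IsSign (K : IntermediateField F Ω) {N : IntermediateField F Ω} {A : Type*} [Field A]
    (η : (N ≃ₐ[F] N) →* Aˣ) : Prop :=
  (∀ g : N ≃ₐ[F] N, (∀ x : N, (x : Ω) ∈ K → g x = x) → η g = 1) ∧
  (∀ g : N ≃ₐ[F] N, (∃ x : N, (x : Ω) ∈ K ∧ g x ≠ x) → η g = -1)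

theorem IsSign.eq_or {K N : IntermediateField F Ω} {A : Type*} [Field A]
    {η : (N ≃ₐ[F] N) →* Aˣ} (h : IsSign K η) (g : N ≃ₐ[F] N) : η g = 1 ∨ η g = -1 := by
  by_cases h1 : ∀ x : N, (x : Ω) ∈ K → g x = x
  · exact Or.inl (h.1 g h1)
  · push Not at h1
    exact Or.inr (h.2 g h1)

theorem IsSign.twist {K N : IntermediateField F Ω} {A : Type*} [Field A]
    {η : (N ≃ₐ[F] N) →* Aˣ} (h : IsSign K η) (hK : K ≤ N) (θ : (N ≃ₐ[F] N) →* Aˣ) :
    letI : Algebra K N := algIn hK
    Twist K θ (θ * η) := by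
  letI : Algebra K N := algIn hK
  refine ⟨fun g hg ↦ ?_, fun g hg ↦ ?_⟩
  · rw [MonoidHom.mul_apply, h.1 g fun x hx ↦ hg ⟨x, hx⟩, mul_one]
  · obtain ⟨x, hx⟩ := hg
    rw [MonoidHom.mul_apply, h.2 g ⟨algebraMap K N x, x.2, hx⟩, mul_neg, mul_one]

end alg

section

variable {F : Type u} {Ω : Type w} [Field F] [NumberField F] [Field Ω] [CharZero Ω]
  [Algebra F Ω]

theorem exists_isSign {K N : IntermediateField F Ω} [FiniteDimensional F N] [IsGalois F N]
    (A : Type*) [Field A] (hKN : K ≤ N) (hK : finrank F K = 2) :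
    ∃ η : (N ≃ₐ[F] N) →* Aˣ, IsSign K η := by
  letI : Algebra K N := algIn hKN
  haveI : IsScalarTower F K N := IsScalarTower.of_algebraMap_eq fun _ ↦ rfl
  have hNF : NumberField N := NumberField.of_module_finite F N
  obtain ⟨η, h1, h2⟩ := exists_eta (k₀ := F) (K := K) (N := N) A hK
  refine ⟨η, fun g hg ↦ h1 g fun x ↦ hg (algebraMap K N x) x.2, fun g ⟨x, hx, hx'⟩ ↦
    h2 g ⟨⟨x, hx⟩, hx'⟩⟩

/-- Different fields have different signs. -/
theorem IsSign.ne {K₁ K₂ N : IntermediateField F Ω} [FiniteDimensional F N] [IsGalois F N]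
    {A : Type*} [Field A] [CharZero A] (hK₁ : K₁ ≤ N) (hK₂ : K₂ ≤ N) (h1 : finrank F K₁ = 2)
    (h2 : finrank F K₂ = 2) {η₁ η₂ : (N ≃ₐ[F] N) →* Aˣ} (hη₁ : IsSign K₁ η₁) (hη₂ : IsSign K₂ η₂)
    (hne : K₁ ≠ K₂) : η₁ ≠ η₂ := by
  intro h
  apply hne
  letI : Algebra K₁ N := algIn hK₁
  letI : Algebra K₂ N := algIn hK₂
  haveI : IsScalarTower F K₁ N := IsScalarTower.of_algebraMap_eq fun _ ↦ rfl
  have hNF : NumberField N := NumberField.of_module_finite F N
  have hfd₁ : FiniteDimensional F K₁ := FiniteDimensional.of_finrank_pos (by omega)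
  symm
  apply IntermediateField.eq_of_le_of_finrank_eq
  · intro y hy
    by_contra hy1
    obtain ⟨g, hg1, hg2⟩ := exists_separate (k₀ := F) (K := K₁) (N := N) (⟨y, hy⟩ : K₂) (by
      rintro ⟨z, hz⟩
      apply hy1
      have h3 : (z : Ω) = y := congrArg (fun t : N ↦ (t : Ω)) hz
      rw [← h3]
      exact z.2)
    have h3 : η₁ g = 1 := hη₁.1 g fun x hx ↦ hg1 ⟨x, hx⟩
    have h4 : η₂ g = -1 := hη₂.2 g ⟨⟨y, hK₂ hy⟩, hy, hg2⟩
    rw [h, h4] at h3
    have h5 := congrArg (fun z : Aˣ ↦ (z : A)) h3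
    have h6 : (-1 : A) = 1 := h5
    have h7 : (2 : A) = 0 := by linear_combination -h6
    exact two_ne_zero h7
  · rw [h1, h2]

/-- The restriction of `ψ` to `Gal(KE/K)`. -/
theorem exists_chi {E K : IntermediateField F Ω} [Normal F E] {A : Type*} [Field A]
    (ψ : (E ≃ₐ[F] E) →* Aˣ) : ∃ χ : (Comp E K ≃ₐ[K] Comp E K) →* Aˣ,
      (∀ h g, Extends E.val.toRingHom (Comp E K).val.toRingHom h g → χ h = ψ g) ∧
      ∀ h : Comp E K ≃ₐ[K] Comp E K, ∃ g : E ≃ₐ[F] E,
        Extends E.val.toRingHom (Comp E K).val.toRingHom h g := by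
  letI : Algebra F (Comp E K) := ((algebraMap K (Comp E K)).comp (algebraMap F K)).toAlgebra
  haveI : IsScalarTower F K (Comp E K) := IsScalarTower.of_algebraMap_eq fun _ ↦ rfl
  letI : Algebra E (Comp E K) := (incl E K).toAlgebra
  haveI : IsScalarTower F E (Comp E K) := IsScalarTower.of_algebraMap_eq fun _ ↦ rfl
  have key : ∀ (h : Comp E K ≃ₐ[K] Comp E K) (x : E),
      (((h.restrictScalars F).restrictNormal E x : E) : Ω) = ((h (incl E K x) : Comp E K) : Ω) :=
    fun h x ↦ congrArg (fun z : Comp E K ↦ (z : Ω))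
      (AlgEquiv.restrictNormal_commutes (h.restrictScalars F) E x)
  refine ⟨ψ.comp ((AlgEquiv.restrictNormalHom E).comp (AlgEquiv.restrictScalarsHom F)),
    fun h g hg ↦ ?_, fun h ↦ ⟨(h.restrictScalars F).restrictNormal E, ?_⟩⟩
  · show ψ ((h.restrictScalars F).restrictNormal E) = ψ g
    congr 1
    ext x
    rw [key]
    exact hg x (incl E K x) rfl
  · intro x y hxy
    have h1 : y = incl E K x := Subtype.ext hxy
    rw [h1]
    exact (key h x).symm

/-- Compatibility of `χ` and `θ`. -/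
theorem compat_theta {E K N : IntermediateField F Ω} [Normal F E] (hE : E ≤ N) (hK : K ≤ N)
    {A : Type*} [Field A] (ψ : (E ≃ₐ[F] E) →* Aˣ) (χ : (Comp E K ≃ₐ[K] Comp E K) →* Aˣ)
    (hχ : ∀ h g, Extends E.val.toRingHom (Comp E K).val.toRingHom h g → χ h = ψ g) :
    letI : Algebra (Comp E K) N := algComp hE hK
    Compat χ (ψ.comp (resE hE)) := by
  letI : Algebra (Comp E K) N := algComp hE hK
  intro g h hgh
  symm
  apply hχ
  intro x y hxy
  have h1 : y = incl E K x := Subtype.ext hxy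
  rw [h1]
  have h2 := congrArg (fun z : N ↦ (z : Ω)) (hgh (incl E K x))
  exact h2.symm.trans (resE_spec hE g x).symm

/-- Compatibility of `χ` and `θ η`. -/
theorem compat_mul {E K N : IntermediateField F Ω} (hE : E ≤ N) (hK : K ≤ N)
    {A : Type*} [Field A] (χ : (Comp E K ≃ₐ[K] Comp E K) →* Aˣ) (θ η : (N ≃ₐ[F] N) →* Aˣ)
    (hη : IsSign K η) :
    letI : Algebra (Comp E K) N := algComp hE hK
    Compat χ θ → Compat χ (θ * η) := by
  letI : Algebra (Comp E K) N := algComp hE hK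
  intro h0 g h hgh
  rw [MonoidHom.mul_apply, h0 g h hgh, hη.1 g, mul_one]
  intro x hx
  have h1 := hgh (algebraMap K (Comp E K) ⟨x, hx⟩)
  rw [AlgEquiv.commutes] at h1
  exact h1

/-- Independence of the choice of `χ`, `L`. -/
theorem holdsAt_iff {E K : IntermediateField F Ω} [FiniteDimensional F E] [Normal F E]
    (hK : finrank F K = 2) [IsAlgClosed Ω] (p : ℕ) [Fact p.Prime] {k : Type*} [NormedField k]
    [NormedAlgebra ℚ_[p] k] [IsUltrametricDist k] [CompleteSpace k] [IsAlgClosed k]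
    (ψ : (E ≃ₐ[F] E) →* kˣ) (ιinf : Ω →+* ℂ) (ιp : Ω →+* k) (S : Set (K →+* ℂ))
    (χ₀ : (Comp E K ≃ₐ[K] Comp E K) →* kˣ) (L₀ : IwasawaLog p k)
    (hχ₀ : ∀ h g, Extends E.val.toRingHom (Comp E K).val.toRingHom h g → χ₀ h = ψ g) :
    HoldsAt E K p ψ ιinf ιp S ↔
      InjectiveOn (finrank K (Comp E K)) χ₀ unitsHom (logSigma ιinf ιp S L₀) := by
  constructor
  · intro h
    exact h χ₀ L₀ hχ₀
  · intro h χ L hχ
    have h1 : χ = χ₀ := by
      obtain ⟨-, -, hex⟩ := exists_chi (E := E) (K := K) ψ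
      ext g
      obtain ⟨g₀, hg₀⟩ := hex g
      rw [hχ g g₀ hg₀, hχ₀ g g₀ hg₀]
    have hfdK : FiniteDimensional F K := FiniteDimensional.of_finrank_pos (by omega)
    have hNFK : NumberField K := NumberField.of_module_finite F K
    have hfdH := finiteDimensional_comp E K
    have hNFH : NumberField (Comp E K) := NumberField.of_module_finite K _
    have h2 : logSigma ιinf ιp S L = (logSigma ιinf ιp S L₀ :
        Set (Additive (𝓞 (Comp E K))ˣ →+ k)) := by
      ext ℓ
      constructor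
      · rintro ⟨σ, hσ, rfl⟩
        exact ⟨σ, hσ, logUnits_unique p ιp L L₀ _⟩
      · rintro ⟨σ, hσ, rfl⟩
        exact ⟨σ, hσ, logUnits_unique p ιp L₀ L _⟩
    rw [h1, h2]
    exact h

end

end Pool.Agent.Helper17.SLD
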