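import Pool.Agent.Helper42.SLC.Goals

/-!
# Project SLD: Sigma-Leopoldt for almost all CM fields, every degree (MP_fc6b1e_nt)

`F` is a totally real field of degree `d ≥ 3`, `N/F` a finite Galois extension, `θ` a character of
`Gal(N/F)` which is odd at exactly one real place of `F`. See `PAPER.md` in this folder.
-/

namespace Pool.Agent.Helper17.SLD

open Pool.Agent.Helper17.SL Pool.Agent.Helper42.SLC
open Pool.Agent.Helper51.SigLeo Pool.Agent.Helper51.SixExp NumberField Module TensorProduct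

section

variable {F N A : Type*} [Field F] [Field N] [Algebra F N] [Field A]

/-- The character `θ` is odd at the embedding `s` of the totally real field `F` and even at the
other ones: if `conj ρ = ρ ∘ c` then `θ(c) = -1` if `ρ = s` on `F`, and `θ(c) = 1` otherwise. -/
def OddAt (s : F →+* ℂ) (θ : (N ≃ₐ[F] N) →* Aˣ) : Prop :=
  ∀ (ρ : N →+* ℂ) (c : N ≃ₐ[F] N), ComplexEmbedding.conjugate ρ = ρ.comp (c : N →+* N) →
    (ρ.comp (algebraMap F N) = s → θ c = -1) ∧ (ρ.comp (algebraMap F N) ≠ s → θ c = 1)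

/-- The character `θ` is even at the embedding `s` and odd at the other ones. -/
def EvenAt (s : F →+* ℂ) (θ : (N ≃ₐ[F] N) →* Aˣ) : Prop :=
  ∀ (ρ : N →+* ℂ) (c : N ≃ₐ[F] N), ComplexEmbedding.conjugate ρ = ρ.comp (c : N →+* N) →
    (ρ.comp (algebraMap F N) = s → θ c = 1) ∧ (ρ.comp (algebraMap F N) ≠ s → θ c = -1)

/-- The vector of the `tw θ (logUnits Λ (σ m)) v`. -/
noncomputable def vec {p : ℕ} {k : Type*} [NormedField k] [Fintype (N ≃ₐ[F] N)]
    (Λ : IwasawaLog p k) (θ : (N ≃ₐ[F] N) →* kˣ) {n : ℕ} (σ : Fin n → N →+* k)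
    (v : Additive (𝓞 N)ˣ) : Fin n → k :=
  fun m ↦ tw θ (logUnits Λ (σ m)) v

/-- `θ` and `θ'` are equal on `Gal(N/K)` and opposite outside. -/
def Twist (K : Type*) [Field K] [Algebra K N] (θ θ' : (N ≃ₐ[F] N) →* Aˣ) : Prop :=
  (∀ g : N ≃ₐ[F] N, (∀ x : K, g (algebraMap K N x) = algebraMap K N x) → θ' g = θ g) ∧
  (∀ g : N ≃ₐ[F] N, (∃ x : K, g (algebraMap K N x) ≠ algebraMap K N x) → θ' g = -θ g)

end

/-- The relation attached to a failing field, in the frame `σ`. -/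
def RelAt {F N : Type*} [Field F] [Field N] [Algebra F N] {p : ℕ} {k : Type*} [NormedField k]
    [Fintype (N ≃ₐ[F] N)] (Λ : IwasawaLog p k) (θ θ' : (N ≃ₐ[F] N) →* kˣ) {n : ℕ}
    (σ : Fin n → N →+* k) : Prop :=
  ∃ c e : Fin n → k, c ≠ 0 ∧ (∀ m, e m = 1 ∨ e m = -1) ∧ (∀ v, ∑ m, c m * vec Λ θ σ v m = 0) ∧
    (∀ v, ∑ m, c m * (e m * vec Λ θ' σ v m) = 0)

end Pool.Agent.Helper17.SLD
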