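import Pool.Agent.Helper17.SLD.Stmt

/-!
# Project SLD: the hypothesis and the conclusion of the theorem
-/

namespace Pool.Agent.Helper17.SLD

open Pool.Agent.Helper51.SigLeo Pool.Agent.Helper42.SLC NumberField Module

section

variable {F Ω : Type*} [Field F] [Field Ω] [Algebra F Ω]

/-- Exactly one place of `F` is complex in `E`. -/
def OneComplex (E : IntermediateField F Ω) : Prop :=
  ∃! v : InfinitePlace F, ∃ w : InfinitePlace E, w.IsComplex ∧ w.comap (algebraMap F E) = v

/-- The `Σ`-Leopoldt statement for `χ`, the restriction of `ψ` to `Gal(KE/K)`, holds for one CM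
field `K` quadratic over `F`, one pair of embeddings `ι_∞`, `ι_p` and one CM type `S` of `K`. -/
def SomeGood [CharZero Ω] (E : IntermediateField F Ω) (p : ℕ) {k : Type*} [NormedField k]
    (ψ : (E ≃ₐ[F] E) →* kˣ) : Prop :=
  ∃ (K : IntermediateField F Ω) (ιinf : Ω →+* ℂ) (ιp : Ω →+* k) (S : Set (K →+* ℂ)),
    QuadraticCM K ∧ IsCMType S ∧ HoldsAt E K p ψ ιinf ιp S

end

section

variable {F Ω : Type*} [Field F] [CharZero F] [Field Ω] [CharZero Ω] [Algebra F Ω]

/-- Let `d` be the degree of `F` and let `ψ` be a character of `Gal(E/F)` with values in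
`k = ℂ_p`.

* For all CM fields `K` quadratic over `F`, with at most `(d - 1)²` exceptions, the `Σ`-Leopoldt
  statement holds for `χ` (the restriction of `ψ` to `Gal(KE/K)`), all `ι_∞`, `ι_p` and all CM types
  of `K`.
* For every such `K` and all `ι_∞`, `ι_p` there is an embedding `φ₀` of `K` such that, for every CM
  type `S` of `K`, the statement holds for `S` or for the CM type obtained from `S` by the exchange
  of `φ₀` and its conjugate (so it holds for at least half of the CM types). -/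
def AlmostAll (E : IntermediateField F Ω) (p : ℕ) {k : Type*} [NormedField k]
    (ψ : (E ≃ₐ[F] E) →* kˣ) : Prop :=
  {K : IntermediateField F Ω | QuadraticCM K ∧ ∃ (ιinf : Ω →+* ℂ) (ιp : Ω →+* k)
    (S : Set (K →+* ℂ)), IsCMType S ∧ ¬ HoldsAt E K p ψ ιinf ιp S}.encard ≤
      ((finrank ℚ F - 1) ^ 2 : ℕ) ∧
  ∀ K : IntermediateField F Ω, QuadraticCM K → ∀ (ιinf : Ω →+* ℂ) (ιp : Ω →+* k),
    ∃ φ₀ : K →+* ℂ, ∀ S : Set (K →+* ℂ), IsCMType S → HoldsAt E K p ψ ιinf ιp S ∨
      HoldsAt E K p ψ ιinf ιp (symmDiff S {φ₀, ComplexEmbedding.conjugate φ₀})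

/-- For every injective character `ψ` of `Gal(E/F)` with values in `ℂ_p`: if `F` is cubic or the
`Σ`-Leopoldt statement holds for one `K`, one pair `ι_∞`, `ι_p` and one CM type of `K`, then it
holds in almost all cases. -/
def OneGivesAll (E : IntermediateField F Ω) (p : ℕ) [Fact p.Prime] : Prop :=
  ∀ ψ : (E ≃ₐ[F] E) →* ℂ_[p]ˣ, Function.Injective ψ →
    (finrank ℚ F = 3 ∨ SomeGood E p ψ) → AlmostAll E p ψ

/-- `E` is quadratic over `F`, exactly one place of `F` is complex in `E` and `AlmostAll` holds for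
all `p ∈ P` and the nontrivial character of `Gal(E/F)`. -/
def GoodExt (P : Finset ℕ) (E : IntermediateField F Ω) : Prop :=
  finrank F E = 2 ∧ OneComplex E ∧ ∀ p ∈ P, ∀ _ : Fact p.Prime,
    ∀ ψ : (E ≃ₐ[F] E) →* ℂ_[p]ˣ, ψ ≠ 1 → AlmostAll E p ψ

end

/-- `F` is a totally real field of degree `d`, not Galois over `ℚ`, which has a quadratic extension
`E` such that exactly one place of `F` is complex in `E` and such that `AlmostAll` holds for all
`p ∈ P` and the nontrivial character of `Gal(E/F)`. -/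
def GoodField {Ω : Type*} [Field Ω] [CharZero Ω] (d : ℕ) (P : Finset ℕ)
    (F : IntermediateField ℚ Ω) : Prop :=
  finrank ℚ F = d ∧ IsTotallyReal F ∧ ¬ IsGalois ℚ F ∧ ∃ E : IntermediateField F Ω,
    GoodExt P E

end Pool.Agent.Helper17.SLD
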