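import Pool.Agent.Helper42.SL.Main
import Pool.Agent.Helper17.SLD.Conc
import Pool.Agent.Helper17.SLD.Stmt2

/-!
# Project SLD: the hypothesis holds for infinitely many fields in every degree
-/

namespace Pool.Agent.Helper17.SLD

open Pool.Agent.Helper17.SL Pool.Agent.Helper42.SLC
open Pool.Agent.Helper51.SigLeo NumberField Module IntermediateField

set_option linter.unusedSectionVars false
set_option linter.style.haveILetI false

/-- A CM type of a totally complex field. -/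
theorem exists_isCMType (K : Type*) [Field K] [NumberField K] [IsTotallyComplex K] :
    ∃ S : Set (K →+* ℂ), IsCMType S := by
  refine ⟨{φ | (InfinitePlace.mk φ).embedding = φ}, fun φ ↦ ?_⟩
  have h1 : ComplexEmbedding.conjugate φ ≠ φ := fun h ↦
    IsTotallyComplex.complexEmbedding_not_isReal φ h
  rw [Set.mem_ofPred_eq, Set.mem_ofPred_eq, InfinitePlace.mk_conjugate_eq]
  rcases InfinitePlace.embedding_mk_eq φ with h | h
  · rw [h]
    exact ⟨fun _ h2 ↦ h1 h2.symm, fun _ ↦ rfl⟩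
  · rw [h]
    exact ⟨fun h2 ↦ absurd h2 h1, fun h2 ↦ absurd rfl h2⟩

section

variable {F Ω : Type*} [Field F] [NumberField F] [IsTotallyReal F] [Field Ω] [CharZero Ω]
  [Algebra F Ω]

/-- If `y` is negative at exactly one embedding of `F` in `ℝ`, exactly one place of `F` is complex
in `F(√y)`. -/
theorem oneComplex_sqrt {y : F} {x : Ω} (hx : x ^ 2 = algebraMap F Ω y)
    (hneg : Nat.card {φ : F →+* ℝ // φ y < 0} = 1) : OneComplex F⟮x⟯ := by
  classical
  obtain ⟨hsub, ⟨φ₀, hφ₀⟩⟩ := Nat.card_eq_one_iff_unique.mp hneg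
  have huniq : ∀ φ : F →+* ℝ, φ y < 0 → φ = φ₀ := fun φ hφ ↦
    congrArg Subtype.val (hsub.elim ⟨φ, hφ⟩ ⟨φ₀, hφ₀⟩)
  have hxint : IsIntegral F x := ⟨Polynomial.X ^ 2 - Polynomial.C y,
    Polynomial.monic_X_pow_sub_C _ two_ne_zero, by simp [hx]⟩
  have hfd : FiniteDimensional F F⟮x⟯ := IntermediateField.adjoin.finiteDimensional hxint
  have hNF : NumberField F⟮x⟯ := NumberField.of_module_finite F F⟮x⟯
  have hgen : (AdjoinSimple.gen F x) ^ 2 = algebraMap F F⟮x⟯ y := by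
    apply (algebraMap F⟮x⟯ Ω).injective
    rw [map_pow, AdjoinSimple.algebraMap_gen, hx, ← IsScalarTower.algebraMap_apply]
  refine ⟨InfinitePlace.mk (Complex.ofRealHom.comp φ₀), ?_, ?_⟩
  · -- existence
    letI : Algebra F ℂ := (Complex.ofRealHom.comp φ₀).toAlgebra
    let ρ : F⟮x⟯ →ₐ[F] ℂ := IsAlgClosed.lift
    refine ⟨InfinitePlace.mk ρ.toRingHom, ?_, ?_⟩
    · rw [InfinitePlace.isComplex_mk_iff, ComplexEmbedding.isReal_iff]
      intro h0
      have h2 : (starRingEnd ℂ) (ρ (AdjoinSimple.gen F x)) = ρ (AdjoinSimple.gen F x) :=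
        RingHom.congr_fun h0 (AdjoinSimple.gen F x)
      obtain ⟨r, hr⟩ := Complex.conj_eq_iff_real.mp h2
      have h3 := congrArg ρ hgen
      rw [map_pow, hr, AlgHom.commutes] at h3
      have h4 : (algebraMap F ℂ) y = ((φ₀ y : ℝ) : ℂ) := rfl
      rw [h4] at h3
      have h5 : r ^ 2 = φ₀ y := by exact_mod_cast h3
      nlinarith [sq_nonneg r]
    · rw [InfinitePlace.comap_mk]
      congr 1
      ext t
      exact ρ.commutes t
  · -- uniqueness
    rintro v ⟨w, hw, rfl⟩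
    set ρ : F⟮x⟯ →+* ℂ := w.embedding with hρ
    have hwρ : w = InfinitePlace.mk ρ := (InfinitePlace.mk_embedding w).symm
    have hreal : ComplexEmbedding.IsReal (ρ.comp (algebraMap F F⟮x⟯)) :=
      IsTotallyReal.complexEmbedding_isReal _
    set φ : F →+* ℝ := hreal.embedding with hφ
    have hφt : ∀ t, ((φ t : ℝ) : ℂ) = ρ (algebraMap F F⟮x⟯ t) := fun t ↦
      ComplexEmbedding.IsReal.coe_embedding_apply hreal t
    have hlt : φ y < 0 := by
      by_contra hge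
      rw [not_lt] at hge
      rw [InfinitePlace.isComplex_iff, ComplexEmbedding.isReal_iff] at hw
      apply hw
      have h1 : (ρ (AdjoinSimple.gen F x)) ^ 2 = ((φ y : ℝ) : ℂ) := by
        rw [← map_pow, hgen, hφt]
      have h2 : (starRingEnd ℂ) (ρ (AdjoinSimple.gen F x)) = ρ (AdjoinSimple.gen F x) := by
        have h3 : (ρ (AdjoinSimple.gen F x)) ^ 2 = ((Real.sqrt (φ y) : ℝ) : ℂ) ^ 2 := by
          rw [h1, ← Complex.ofReal_pow, Real.sq_sqrt hge]
        rcases sq_eq_sq_iff_eq_or_eq_neg.mp h3 with h | h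
        · rw [h, Complex.conj_ofReal]
        · rw [h, map_neg, Complex.conj_ofReal]
      letI : Algebra F ℂ := (ρ.comp (algebraMap F F⟮x⟯)).toAlgebra
      let f₁ : F⟮x⟯ →ₐ[F] ℂ := { ρ with commutes' := fun _ ↦ rfl }
      let f₂ : F⟮x⟯ →ₐ[F] ℂ := { ComplexEmbedding.conjugate ρ with
        commutes' := fun t ↦ RingHom.congr_fun hreal t }
      have h4 : f₂ = f₁ := by
        refine IntermediateField.algHom_ext_of_eq_adjoin F (S := F⟮x⟯) (s := {x}) rfl ?_
        rintro z hz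
        obtain rfl : z = x := hz
        exact h2
      exact RingHom.ext fun z ↦ AlgHom.congr_fun h4 z
    have h6 : φ = φ₀ := huniq φ hlt
    rw [hwρ, InfinitePlace.comap_mk]
    congr 1
    ext t
    rw [← h6]
    exact (hφt t).symm

/-- `KE = K(x)` for `E = F(x)`. -/
theorem comp_sqrt (K : IntermediateField F Ω) (x : Ω) : Comp F⟮x⟯ K = K⟮x⟯ := by
  apply le_antisymm
  · rw [IntermediateField.adjoin_le_iff]
    have h1 : F⟮x⟯ ≤ (K⟮x⟯).restrictScalars F := by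
      rw [IntermediateField.adjoin_simple_le_iff]
      exact IntermediateField.mem_adjoin_simple_self K x
    exact h1
  · rw [IntermediateField.adjoin_simple_le_iff]
    exact IntermediateField.subset_adjoin K _ (IntermediateField.mem_adjoin_simple_self F x)

end

/-- The fields of the theorem `AllDegrees` with `r = d - 1` satisfy the hypothesis. -/
theorem hyp_of_good {Ω : Type*} [Field Ω] [CharZero Ω] [IsAlgClosed Ω] [Algebra.IsAlgebraic ℚ Ω]
    {d δ : ℕ} (hd : 3 ≤ d) (hδ : 0 < δ) {P : Finset ℕ} {F : IntermediateField ℚ Ω}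
    (hF : Pool.Agent.Helper42.SL.Good Ω d (d - 1) δ P F) :
    finrank ℚ F = d ∧ IsTotallyReal F ∧ ¬ IsGalois ℚ F ∧
      ∃ E : IntermediateField F Ω, finrank F E = 2 ∧ OneComplex E ∧
        ∀ p ∈ P, ∀ _ : Fact p.Prime, ∀ ψ : (E ≃ₐ[F] E) →* ℂ_[p]ˣ, ψ ≠ 1 → Function.Injective ψ ∧
          ∃ (K : IntermediateField F Ω) (ιinf : Ω →+* ℂ) (ιp : Ω →+* ℂ_[p]) (S : Set (K →+* ℂ)),
            QuadraticCM K ∧ IsCMType S ∧ HoldsAt E K p ψ ιinf ιp S := by
  obtain ⟨hdeg, hreal, hgal, y, -, hneg, hall⟩ := hF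
  refine ⟨hdeg, hreal, hgal, ?_⟩
  have hfdF : FiniteDimensional ℚ F := FiniteDimensional.of_finrank_pos (by omega)
  have hNF : NumberField F := ⟨⟩
  obtain ⟨x, hx⟩ := IsAlgClosed.exists_pow_nat_eq (y : Ω) (n := 2) (by norm_num)
  obtain ⟨θ, hθ⟩ := IsAlgClosed.exists_pow_nat_eq (-(δ : Ω)) (n := 2) (by norm_num)
  have hneg1 : Nat.card {φ : F →+* ℝ // φ y < 0} = 1 := by
    rw [hneg]
    omega
  obtain ⟨-, ⟨φ₀, hφ₀⟩⟩ := Nat.card_eq_one_iff_unique.mp hneg1
  have hx' : x ^ 2 = algebraMap F Ω y := hx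
  have hE2 : finrank F F⟮x⟯ = 2 := by
    refine Pool.Agent.Helper51.SigLeo.finrank_adjoin_sqrt (d := y) hx' ?_
    rintro ⟨t, ht⟩
    have h1 : t ^ 2 = y := by
      apply (algebraMap F Ω).injective
      rw [map_pow, ht, hx']
    have h2 := congrArg φ₀ h1
    rw [map_pow] at h2
    nlinarith [sq_nonneg (φ₀ t)]
  refine ⟨F⟮x⟯, hE2, oneComplex_sqrt hx' hneg1, fun p hp hpp ψ hψ ↦ ?_⟩
  obtain ⟨hK2, hH2, hS⟩ := hall θ x hθ hx
  have hfdE : FiniteDimensional F F⟮x⟯ := FiniteDimensional.of_finrank_pos (by omega)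
  have hqE : Algebra.IsQuadraticExtension F F⟮x⟯ := ⟨hE2⟩
  have hgalE : IsGalois F F⟮x⟯ := ⟨⟩
  have hinj : Function.Injective ψ := by
    have hcard : Nat.card (F⟮x⟯ ≃ₐ[F] F⟮x⟯) = 2 := by
      rw [IsGalois.card_aut_eq_finrank, hE2]
    have : Fact (Nat.Prime 2) := ⟨Nat.prime_two⟩
    have hsim : IsSimpleGroup (F⟮x⟯ ≃ₐ[F] F⟮x⟯) := isSimpleGroup_of_prime_card hcard
    rw [← MonoidHom.ker_eq_bot_iff]
    rcases (inferInstance : ψ.ker.Normal).eq_bot_or_eq_top with h | h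
    · exact h
    · exfalso
      apply hψ
      ext g
      have h1 : g ∈ ψ.ker := h ▸ Subgroup.mem_top g
      rw [MonoidHom.mem_ker.mp h1]
      rfl
  have hTC : IsTotallyComplex F⟮θ⟯ := Pool.Agent.Helper42.SL.totallyComplex_K hδ hθ
  have hfdK : FiniteDimensional F F⟮θ⟯ := FiniteDimensional.of_finrank_pos (by omega)
  have hNK : NumberField F⟮θ⟯ := NumberField.of_module_finite F F⟮θ⟯
  have hqK : Algebra.IsQuadraticExtension F F⟮θ⟯ := ⟨hK2⟩
  have hCM : IsCMField F⟮θ⟯ := IsCMField.ofCMExtension F F⟮θ⟯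
  obtain ⟨S, hSt⟩ := exists_isCMType F⟮θ⟯
  refine ⟨hinj, F⟮θ⟯, (IsAlgClosed.lift : Ω →ₐ[ℚ] ℂ).toRingHom,
    (IsAlgClosed.lift : Ω →ₐ[ℚ] ℂ_[p]).toRingHom, S, ⟨hK2, hCM⟩, hSt, fun χ L hχ ↦ ?_⟩
  have hχinj : Function.Injective χ := by
    rw [← MonoidHom.ker_eq_bot_iff, Subgroup.eq_bot_iff_forall]
    intro h hh
    obtain ⟨-, -, hex⟩ := exists_chi (E := F⟮x⟯) (K := F⟮θ⟯) ψ
    obtain ⟨g, hg⟩ := hex h
    have h1 : ψ g = 1 := by
      rw [← hχ h g hg]
      exact MonoidHom.mem_ker.mp hh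
    have h2 : g = 1 := hinj (by rw [h1, map_one])
    apply comp_gen
    intro z
    have h3 := hg z (incl F⟮x⟯ F⟮θ⟯ z) rfl
    rw [h2] at h3
    exact Subtype.ext h3
  have h4 := hS p hp hpp
  rw [← comp_sqrt (F := F) F⟮θ⟯ x] at h4
  exact h4 _ _ S χ L hSt hχinj

end Pool.Agent.Helper17.SLD
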