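import Pool.Agent.Helper16.SLD.FIN
import Pool.Agent.Helper60.SL.DETP

/-!
# Project SLD (MP_fc6b1e_nt), packet R3: the rank in degree three
-/

namespace Pool.Agent.Helper17.SLD.PkR3

open Pool.Agent.Helper17.SLD
open Pool.Agent.Helper17.SL Pool.Agent.Helper42.SLC
open Pool.Agent.Helper51.SigLeo Pool.Agent.Helper51.SixExp NumberField Module TensorProduct

set_option linter.unusedSectionVars false

universe u v w x y z

/-- **R3**. -/
theorem thm (hRANK : S_RANK.{w, x, w, v}) (hND : S_ND.{u, v, w, x, w}) (hLOW : S_LOW.{u, v}) :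
    S_R3.{u, v, w, x} := by
  intro F _ _ _ N _ _ _ _ _ Ω _ _ _ _ p _ k _ _ _ _ ιp Λ θ s σ hF hσ hodd
  classical
  have hchar : CharZero k := charZero_of_padic p (k := k)
  -- the lift of the frame
  have hlift : ∀ m, ∃ τ : N →+* Ω, ιp.comp τ = σ m := fun m ↦ PkFIN.exists_lift_range ιp (σ m)
  choose τ hτ using hlift
  have hτinj : Function.Injective (fun m ↦ (τ m).comp (algebraMap F N)) := by
    intro m m' hmm
    apply hσ
    show (σ m).comp (algebraMap F N) = (σ m').comp (algebraMap F N)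
    rw [← hτ m, ← hτ m', RingHom.comp_assoc, RingHom.comp_assoc]
    exact congrArg (fun z ↦ ιp.comp z) hmm
  -- the descent
  obtain ⟨E, hE, θ₁, hθ₁⟩ := PkGA1.thm Ω k ιp (N ≃ₐ[F] N) θ
  set lam : E →+* Ω := algebraMap E Ω with hlam
  set j : E →+* k := ιp.comp lam with hjdef
  have hjθ : ∀ g, j ((θ₁ g : Eˣ) : E) = θ g := fun g ↦ hθ₁ g
  have hodd₁ : OddAt s θ₁ := by
    intro ρ c hρ
    constructor
    · intro h
      apply Units.ext
      apply j.injective
      rw [hjθ, (hodd ρ c hρ).1 h, Units.val_neg, Units.val_neg, Units.val_one, Units.val_one,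
        map_neg, map_one]
    · intro h
      apply Units.ext
      apply j.injective
      rw [hjθ, (hodd ρ c hρ).2 h, Units.val_one, Units.val_one, map_one]
  -- an embedding of `Ω` in `ℂ`
  obtain ⟨ρ₀⟩ : Nonempty (N →+* ℂ) := inferInstance
  obtain ⟨ι', -⟩ := exists_comp_eq (τ 0) ρ₀
  set ε : E →+* ℂ := ι'.comp lam with hεdef
  have hinj' : Function.Injective (fun m ↦ (ι'.comp (τ m)).comp (algebraMap F N)) := by
    intro m m' hmm
    apply hτinj
    show (τ m).comp (algebraMap F N) = (τ m').comp (algebraMap F N)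
    ext y
    apply ι'.injective
    exact RingHom.congr_fun hmm y
  obtain ⟨m₀, hm₀⟩ : ∃ m₀, (ι'.comp (τ m₀)).comp (algebraMap F N) = s := by
    have hcard : Fintype.card (Fin 3) = Fintype.card (F →+* ℂ) := by
      rw [Embeddings.card, hF, Fintype.card_fin]
    exact ((Fintype.bijective_iff_injective_and_card _).mpr ⟨hinj', hcard⟩).2 s
  set θC : (N ≃ₐ[F] N) →* ℂˣ := (Units.map (ε : E →* ℂ)).comp θ₁ with hθC
  have hθC1 : θC ≠ 1 := by
    intro h1
    obtain ⟨c, hc⟩ := PkGA7.thm F N ℂ (ι'.comp (τ m₀))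
      (ComplexEmbedding.conjugate (ι'.comp (τ m₀))) (by
        rw [ComplexEmbedding.conjugate_comp, conjugate_real])
    have h2 := (hodd₁ _ c hc).1 hm₀
    have h3 : θC c = 1 := by rw [h1]; rfl
    have h4 : ε ((θ₁ c : Eˣ) : E) = 1 := congrArg (fun z : ℂˣ ↦ (z : ℂ)) h3
    rw [h2, Units.val_neg, Units.val_one, map_neg, map_one] at h4
    norm_num at h4
  have hns : ∀ i : Fin 2, (ι'.comp (τ (m₀.succAbove i))).comp (algebraMap F N) ≠ s := by
    intro i h
    have h1 : m₀.succAbove i = m₀ := hinj' (h.trans hm₀.symm)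
    exact Fin.succAbove_ne m₀ i h1
  have hlow := hLOW F N θC 2 (fun i ↦ ι'.comp (τ (m₀.succAbove i))) hθC1
    (by
      intro i i' hii h
      apply hii
      apply Fin.succAbove_right_injective (p := m₀)
      apply hinj'
      rcases InfinitePlace.mk_eq_iff.mp h with h1 | h1
      · exact h1
      · rw [conjugate_real] at h1
        exact h1)
    (by
      intro i c hc
      apply Units.ext
      show ε ((θ₁ c : Eˣ) : E) = 1
      rw [(hodd₁ _ c hc).2 (hns i), Units.val_one, map_one])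
  have hli : LinearIndependent ℂ (fun (i : Fin 2) (v : Additive (𝓞 N)ˣ) ↦
      tw θC (archLog (ι'.comp (τ (m₀.succAbove i)))) v) := by
    rw [Fintype.linearIndependent_iff]
    intro c hc
    have h1 := hlow c (fun v ↦ by
      have h2 := congrFun hc v
      simpa [Finset.sum_apply] using h2)
    intro i
    exact congrFun h1 i
  obtain ⟨v, hv⟩ := PkDETP.thm ℂ (Additive (𝓞 N)ˣ) 2 _ hli
  -- independence over `E`
  have hz : LinearIndependent E (fun i ↦ tchi θ₁ (v i)) := by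
    rw [Fintype.linearIndependent_iff]
    intro e he
    have h1 : Matrix.mulVec (Matrix.of fun i j ↦ tw θC
        (archLog (ι'.comp (τ (m₀.succAbove i)))) (v j)) (fun j ↦ ε (e j)) = 0 := by
      funext i
      have h2 := congrArg (Phi ε (archLog (ι'.comp (τ (m₀.succAbove i))))) he
      rw [map_sum, map_zero] at h2
      show ∑ j, tw θC (archLog (ι'.comp (τ (m₀.succAbove i)))) (v j) * ε (e j) = 0
      rw [← h2]
      refine Finset.sum_congr rfl fun j _ ↦ ?_
      rw [Phi_smul, Phi_eq_tw', smul_eq_mul, mul_comm]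
    have h3 := Matrix.eq_zero_of_mulVec_eq_zero hv h1
    intro i
    exact (map_eq_zero ε).1 (congrFun h3 i)
  refine ⟨v, ?_⟩
  by_contra hcon
  rw [Fintype.not_linearIndependent_iff] at hcon
  obtain ⟨y, hy, j₀, hj₀⟩ := hcon
  -- the other index
  obtain ⟨j₁, hj₁, hsum2⟩ : ∃ j₁ : Fin 2, j₁ ≠ j₀ ∧ ∀ f : Fin 2 → k, ∑ j, f j = f j₀ + f j₁ := by
    fin_cases j₀
    · exact ⟨1, by decide, fun f ↦ Fin.sum_univ_two f⟩
    · exact ⟨0, by decide, fun f ↦ (Fin.sum_univ_two f).trans (add_comm _ _)⟩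
  have h2cases : ∀ j' : Fin 2, j' = j₀ ∨ j' = j₁ := by
    intro j'
    fin_cases j₀ <;> fin_cases j₁ <;> fin_cases j' <;> simp_all
  let M : Fin 3 → Fin 2 → k := fun m j' ↦ vec Λ θ σ (v j') m
  have hM : ∀ m, y j₀ * M m j₀ + y j₁ * M m j₁ = 0 := by
    intro m
    have h2 := congrFun hy m
    rw [Finset.sum_apply, hsum2] at h2
    exact h2
  let X : Fin 3 → Fin 1 → k := fun m _ ↦ M m j₁
  let Z : Fin 1 → Fin 2 → k := fun _ j' ↦ if j' = j₁ then 1 else -(y j₁ / y j₀)
  have hXZ : ∀ m j', M m j' = ∑ t, X m t * Z t j' := by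
    intro m j'
    rw [Fin.sum_univ_one]
    rcases h2cases j' with h | h
    · subst h
      have h3 : Z 0 j' = -(y j₁ / y j') := if_neg (Ne.symm hj₁)
      rw [h3]
      apply mul_left_cancel₀ hj₀
      have h4 := hM m
      show y j' * M m j' = y j' * (M m j₁ * -(y j₁ / y j'))
      field_simp
      linear_combination h4
    · subst h
      have h3 : Z 0 j' = 1 := if_pos rfl
      rw [h3, mul_one]
  have hb : ∀ m j', M m j' = ∑ g, ιp (lam ((θ₁ g⁻¹ : Eˣ) : E)) *
      Λ.toFun (Units.map (ιp : Ω →* k) (img (τ m) (unitsHom g (v j')).toMul)) := by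
    intro m j'
    show tw θ (logUnits Λ (σ m)) (v j') = _
    unfold tw
    refine Finset.sum_congr rfl fun g _ ↦ ?_
    rw [log_img, hτ m]
    congr 1
    exact (hjθ g⁻¹).symm
  obtain ⟨a, c', ha0, hc'0, hac⟩ := hRANK p k Ω ιp Λ E lam 3 2 1 (N ≃ₐ[F] N)
    (fun _ _ g ↦ ((θ₁ g⁻¹ : Eˣ) : E)) (fun m j' g ↦ img (τ m) (unitsHom g (v j')).toMul) M X Z
    (fun _ _ _ ↦ img_isUnitAlg _ _) hb hXZ (by norm_num)
  refine hND F N Ω p k ιp Λ E lam θ₁ 2 0 3 (fun i ↦ i.elim0) s τ v (fun i ↦ i.elim0)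
    (fun i ↦ i.elim0) le_rfl hτinj hodd₁ (fun i ↦ i.elim0) (fun i ↦ i.elim0) (fun i ↦ i.elim0) hz
    (fun i ↦ i.elim0) a c' 0 ha0 (Or.inl hc'0) ?_
  rw [← hac]
  refine Finset.sum_congr rfl fun m _ ↦ ?_
  rw [Fin.sum_univ_zero, add_zero, Finset.mul_sum]
  refine Finset.sum_congr rfl fun j' _ ↦ ?_
  rw [Phi_eq_tw (ιp.comp lam) θ₁ θ hjθ, hτ m, mul_assoc]
  rfl

end Pool.Agent.Helper17.SLD.PkR3
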