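import Pool.Agent.Helper17.SLD.Top
import Pool.Agent.Helper17.SLD.Inf
import Pool.Agent.Helper42.SLC.Final
import Pool.Agent.Helper13.SLD.RG
import Pool.Agent.Helper16.SLD.FIN
import Pool.Agent.Helper2.SLD.GB
import Pool.Agent.Helper20.SLD.INC
import Pool.Agent.Helper31.SLD.RANK
import Pool.Agent.Helper38.SLD.ND
import Pool.Agent.Helper39.SLD.TY
import Pool.Agent.Helper51.SLD.UP
import Pool.Agent.Helper59.SLD.V1
import Pool.Agent.Helper61.SLD.FN
import Pool.Agent.Helper61.SLD.RX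
import Pool.Agent.Helper67.SLD.FR
import Pool.Agent.Helper9.SLD.FRAME
import Pool.Agent.Helper90.SLD.SPL
import Pool.Agent.Helper86.SLD.LOW
import Pool.Agent.Helper65.SLD.CONJ
import Pool.Agent.Helper17.SLD.R3

/-!
# Project SLD: the final theorem, unconditional
-/

namespace Pool.Agent.Helper17.SLD

open Pool.Agent.Helper17.SL Pool.Agent.Helper42.SLC
open Pool.Agent.Helper51.SigLeo Pool.Agent.Helper51.SixExp NumberField Module

universe u v w x y z

theorem spl_holds : S_SPL.{u, v, w} :=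
  Pool.Agent.Helper17.SLD.PkSPL.thm Pool.Agent.Helper17.SLD.PkCONJ.thm

theorem nd_holds : S_ND.{u, v, w, x, y} :=
  Pool.Agent.Helper17.SLD.PkND.thm spl_holds trans_holds Pool.Agent.Helper17.SL.PkGA3.thm

theorem fin_holds : S_FIN.{u, v, w, x} :=
  Pool.Agent.Helper17.SLD.PkFIN.thm Pool.Agent.Helper31.SLD.PkRANK.rank_holds nd_holds

theorem rx_holds : S_RX.{u, v, w, x, y, z} :=
  Pool.Agent.Helper17.SLD.PkRX.thm
    (Pool.Agent.Helper17.SLD.PkFN.thm (Pool.Agent.Helper17.SLD.PkFR.thm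
      Pool.Agent.Helper17.SLD.PkUP.thm) Pool.Agent.Helper79.SLC.nb1 Pool.Agent.Helper40.SLC.nb2)
    PkGA7.thm

theorem rg_holds : S_RG.{u, v, w, x, y, z} :=
  Pool.Agent.Helper17.SLD.PkRG.thm
    (Pool.Agent.Helper17.SLD.PkGB.thm Pool.Agent.Helper17.SLD.PkLOW.thm)
    Pool.Agent.Helper17.SLD.PkINC.thm
    (Pool.Agent.Helper17.SLD.PkV1.thm Pool.Agent.Helper17.SLD.PkUP.thm)

theorem r3_holds : S_R3.{u, v, w, x} :=
  Pool.Agent.Helper17.SLD.PkR3.thm Pool.Agent.Helper31.SLD.PkRANK.rank_holds nd_holds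
    Pool.Agent.Helper17.SLD.PkLOW.thm

theorem ty_holds : S_TY.{u, v, w, x, y, z} := Pool.Agent.Helper17.SLD.PkTY.thm rx_holds

/-- **The theorem** for an arbitrary algebraic closure and an arbitrary `p`-adic field. -/
theorem final_holds
    {F : Type u} {Ω : Type w} [Field F] [NumberField F] [IsTotallyReal F] [Field Ω]
    [CharZero Ω] [Algebra F Ω] [IsAlgClosed Ω] [Algebra.IsAlgebraic F Ω] (hF : 3 ≤ finrank ℚ F)
    (E : IntermediateField F Ω) [FiniteDimensional F E] [IsGalois F E] (hE : OneComplex E)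
    (p : ℕ) [Fact p.Prime] (k : Type x) [NormedField k] [NormedAlgebra ℚ_[p] k]
    [IsUltrametricDist k] [CompleteSpace k] [IsAlgClosed k]
    (ψ : (E ≃ₐ[F] E) →* kˣ) (hψ : Function.Injective ψ)
    (hgood : finrank ℚ F = 3 ∨ SomeGood E p ψ) : AlmostAll E p ψ :=
  top ty_holds fin_holds rx_holds rg_holds r3_holds Pool.Agent.Helper17.SLD.PkFRAME.thm
    PkGA7.thm p hE ψ hψ hF hgood

/-- In every degree the hypothesis holds for infinitely many fields. -/
theorem inf_holds (d : ℕ) (hd : 3 ≤ d) (P : Finset ℕ) :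
    {F : IntermediateField ℚ (AlgebraicClosure ℚ) | GoodField d P F}.Infinite := by
  have halg : @Algebra.IsAlgebraic ℚ (AlgebraicClosure ℚ) _ _ DivisionRing.toRatAlgebra := by
    convert! AlgebraicClosure.isAlgebraic ℚ
  have h1 := Pool.Agent.Helper42.SL.main
    (IsAlgClosed.lift : AlgebraicClosure ℚ →ₐ[ℚ] ℂ).toRingHom d (d - 1) 1 hd (by omega)
    (by omega) one_pos P
  refine h1.mono fun F hF ↦ ?_
  obtain ⟨hdeg, hreal, hgal, E, hE2, hE1, hE⟩ := hyp_of_good hd one_pos hF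
  refine ⟨hdeg, hreal, hgal, E, hE2, hE1, fun p hp hpp ψ hψ ↦ ?_⟩
  have hfdF : FiniteDimensional ℚ F := FiniteDimensional.of_finrank_pos (by omega)
  have hNF : NumberField F := ⟨⟩
  have hfdE : FiniteDimensional F E := FiniteDimensional.of_finrank_pos (by omega)
  have hqE : Algebra.IsQuadraticExtension F E := ⟨hE2⟩
  have hgalE : IsGalois F E := ⟨⟩
  have halg2 : Algebra.IsAlgebraic F (AlgebraicClosure ℚ) :=
    Algebra.IsAlgebraic.tower_top (K := ℚ) F
  obtain ⟨K, ιinf, ιp, S, hK, hS, hgood⟩ := (hE p hp hpp ψ hψ).2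
  exact final_holds (by rw [hdeg]; exact hd) E hE1 p ℂ_[p] ψ (hE p hp hpp ψ hψ).1
    (Or.inr ⟨K, ιinf, ιp, S, hK, hS, hgood⟩)

end Pool.Agent.Helper17.SLD
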