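import Pool.Agent.Helper17.SLD.Defs

/-!
# Project SLD: the goals

Paper proof: `PAPER.md` in this folder. `tw`, `tw_comp`, `tw_logUnits_comp`, `tw_archLog_comp`,
`Phi_eq_tw`, `dedekind`, `exists_comp_eq` are in `Pool/Agent/Helper42/SLC/Core.lean`, `Compat`,
`inclUnits` in `Pool/Agent/Helper42/SLC/Goals.lean`, `OddAt`, `EvenAt`, `vec`, `Twist`, `RelAt` in
`Defs.lean`. `F` is a totally real field of degree `n`, `K/F` a totally complex quadratic extension.
-/

namespace Pool.Agent.Helper17.SLD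

open Pool.Agent.Helper17.SL Pool.Agent.Helper42.SLC
open Pool.Agent.Helper51.SigLeo Pool.Agent.Helper51.SixExp NumberField Module TensorProduct

universe u v w x y z

/-- **RANK** (strong `p`-adic rank theorem), from `S_GEN`, `S_LA`, `S_LB`, `S_SA`, `S_SB`, `S_SC`.
The proof is the proof of `Pool/Agent/Helper40/SL/SIXA.lean` (`r = 1`) with `N = (φ - 1) d + r`
functions: suppose that `∑ lam(a_i) lam(c_j) M_ij ≠ 0` for all `a ≠ 0`, `c ≠ 0`. Then `d, l > 0`,
`M ≠ 0` and `r ≥ 1`. The part of `σ = lam` of the function `a ↦ Y_j(a)` is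
`∑_i lam(a_i) ∑_j' lam(c_j') M_ij' = ∑_t (∑_j' lam(c_j') Z_tj') (∑_i lam(a_i) X_it)`, so all functions
are in the span of the `ι ∘ conjX` and of the `r` functions `a ↦ ∑_i ι(lam(a_i)) X_it`. The
hypothesis of `S_LB` is the assumption (by `S_SB`). Choose `β` with
`r / (l φ) < β < d / ((d + l) φ)`. -/
def S_RANK : Prop := ∀ (p : ℕ) [Fact p.Prime] (k : Type v) [NormedField k] [NormedAlgebra ℚ_[p] k]
  [IsUltrametricDist k] [CompleteSpace k] [CharZero k] (Ω : Type u) [Field Ω] [CharZero Ω]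
  [Algebra.IsAlgebraic ℚ Ω] [IsAlgClosed Ω] (ι : Ω →+* k) (Λ : IwasawaLog p k)
  (E : Type w) [Field E] [NumberField E] (lam : E →+* Ω) (d l r : ℕ) (R : Type x) [Fintype R]
  (b : Fin d → Fin l → R → E) (y : Fin d → Fin l → R → Ωˣ) (M : Fin d → Fin l → k)
  (X : Fin d → Fin r → k) (Z : Fin r → Fin l → k),
  (∀ i j s, IsUnitAlg (y i j s)) →
  (∀ i j, M i j = ∑ s, ι (lam (b i j s)) * Λ.toFun (Units.map (ι : Ω →* k) (y i j s))) →
  (∀ i j, M i j = ∑ t, X i t * Z t j) → r * (d + l) < d * l →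
  ∃ (a : Fin d → E) (c : Fin l → E), a ≠ 0 ∧ c ≠ 0 ∧
    ∑ i, ∑ j, ι (lam (a i)) * ι (lam (c j)) * M i j = 0

/-- **CONJ** (complex conjugation of an algebraic closure of `ℚ`). The image of `ι` is the set of
algebraic numbers of `ℂ` (an algebraically closed subfield, algebraic over `ℚ`), stable under
conjugation. (Or: `algebraicClosure ℚ ℂ` and `IsAlgClosure.equiv`; or: `x` is a root of `minpoly ℚ x`,
which splits in `Ω`, so every root in `ℂ` of this polynomial is in the image of `ι`, in particular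
`conj (ι x)`.) -/
def S_CONJ : Prop := ∀ (Ω : Type u) [Field Ω] [CharZero Ω] [IsAlgClosed Ω]
  [Algebra.IsAlgebraic ℚ Ω] (ι : Ω →+* ℂ), ∃ γ : Ω →+* Ω,
    ι.comp γ = ComplexEmbedding.conjugate ι

/-- **SPL** (splitting by complex conjugations), from CONJ, GA7. Let `ρ : N → ℂ` and `m₀`; take
`ι₀ : Ω → ℂ` with `ι₀ τ_{m₀} = ρ` (`exists_comp_eq`). For every `m'` take `ι'' : Ω → ℂ` such that
`ι'' τ_{m'}` is `s` on `F` (`exists_extend_embedding`, `exists_comp_eq`), and `γ` with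
`ι'' γ = conj ι''`. As `F` is totally real, `conj (ι'' τ_m) = ι'' τ_m` on `F`, so by GA7
`conj (ι'' τ_m) = ι'' τ_m c_m` with `c_m ∈ Gal(N/F)`, hence `γ τ_m = τ_m c_m` and
`(ι₀ γ) τ_m = (ι₀ τ_m) c_m`. Put `f_m = f m (ι₀ τ_m)`, `g_m = g m (ι₀ τ_m)`. The relation for `ι₀ γ` is
`∑_{m ≠ m'} (f_m - g_m) + (- f_{m'} + g_{m'}) = 0`. With `P = ∑ f_m`, `Q = ∑ g_m`:
`P - Q = 2 (f_{m'} - g_{m'})` for every `m'`, and `P + Q = 0` (relation for `ι₀`). Sum over `m'`:
`n (P - Q) = 2 (P - Q)`, so `P = Q` as `n ≥ 3`, and `f_{m'} = g_{m'}` for all `m'`. Finally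
`f_m = 0` or `g_m = 0`: with `ρ = ρ' = ι₀ τ_m` and `conj ρ = ρ c` (GA7): if `ρ = s` on `F` then
`f m ρ = f m (conj ρ) = f m (ρ c) = - f m ρ`, otherwise `g m ρ = - g m ρ`. -/
def S_SPL : Prop := ∀ (F : Type u) [Field F] [NumberField F] [IsTotallyReal F] (N : Type v)
  [Field N] [NumberField N] [Algebra F N] [IsGalois F N] (Ω : Type w) [Field Ω] [CharZero Ω]
  [IsAlgClosed Ω] [Algebra.IsAlgebraic ℚ Ω] (n : ℕ) (τ : Fin n → N →+* Ω)
  (f g : Fin n → (N →+* ℂ) → ℂ) (s : F →+* ℂ), 3 ≤ n →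
  Function.Injective (fun m ↦ (τ m).comp (algebraMap F N)) →
  (∀ m ρ, f m (ComplexEmbedding.conjugate ρ) = f m ρ) →
  (∀ m ρ, g m (ComplexEmbedding.conjugate ρ) = g m ρ) →
  (∀ (ρ : N →+* ℂ) (c : N ≃ₐ[F] N), ComplexEmbedding.conjugate ρ = ρ.comp (c : N →+* N) →
    (ρ.comp (algebraMap F N) = s → ∀ m ρ', f m (ρ'.comp (c : N →+* N)) = -f m ρ' ∧
      g m (ρ'.comp (c : N →+* N)) = g m ρ') ∧
    (ρ.comp (algebraMap F N) ≠ s → ∀ m ρ', f m (ρ'.comp (c : N →+* N)) = f m ρ' ∧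
      g m (ρ'.comp (c : N →+* N)) = -g m ρ')) →
  (∀ ι' : Ω →+* ℂ, ∑ m, (f m (ι'.comp (τ m)) + g m (ι'.comp (τ m))) = 0) →
  ∀ m ρ, f m ρ = 0 ∧ g m ρ = 0

/-- **LOW** (Dirichlet, lower bound). As NV (`Pool/Agent/Helper94/SLC/NV.lean`), which is the case
`n = 1`. For a place `w` of `N` put `c w = (w.mult)⁻¹ * ∑_i ∑_{g : place (ρ_i ∘ g) = w} x_i θ(g⁻¹)`; then
`∑_w c w (w.mult * log w(u)) = ∑_i x_i tw θ (archLog ρ_i) u = 0`, so `c` is constant
(`PkGA2.cplx_rel` in `Pool/Agent/Helper8/SL/GA2.lean`). Places of `ρ_i ∘ g`, `ρ_j ∘ h` with `i ≠ j`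
are different (restrict to `M`); the number of `g'` with place `(ρ_i ∘ g') =` place `(ρ_i ∘ g)` and
the multiplicity do not depend on `g`, and `θ(g'⁻¹) = θ(g⁻¹)` for them. So
`c (place (ρ_i ∘ g)) = C_i x_i θ(g⁻¹)` with `C_i ≠ 0`; if `x_i ≠ 0` then `θ = 1`. -/
def S_LOW : Prop := ∀ (M : Type u) [Field M] (N : Type v) [Field N] [NumberField N] [Algebra M N]
  [Fintype (N ≃ₐ[M] N)] (θ : (N ≃ₐ[M] N) →* ℂˣ) (n : ℕ) (ρ : Fin n → N →+* ℂ), θ ≠ 1 →
  (∀ i j, i ≠ j → InfinitePlace.mk ((ρ i).comp (algebraMap M N)) ≠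
    InfinitePlace.mk ((ρ j).comp (algebraMap M N))) →
  (∀ i (c : N ≃ₐ[M] N), ComplexEmbedding.conjugate (ρ i) = (ρ i).comp (c : N →+* N) → θ c = 1) →
  ∀ x : Fin n → ℂ, (∀ v, ∑ i, x i * tw θ (archLog (ρ i)) v = 0) → x = 0

/-- **UP** (Dirichlet, upper bound), from GA3. As GA4 (`Pool/Agent/Helper42/SL/GA4.lean`). The
function `f_v(σ) = Phi ε (archLog σ) (tchi θ v)` satisfies `f_v(σ ∘ g) = ε(θ(g)) f_v(σ)`
(`archLog_comp`, `Phi_tchi_comp`) and `f_v(conj σ) = f_v(σ)` (`archLog_conj`); so `f_v(σ) = 0` in the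
first case of the hypothesis, and it is determined by `f_v(ρ_i)` in the second. If the
`tchi θ (v j)` are linearly independent over `E` in `E ⊗ U`, their images in `ℂ ⊗ U` are linearly
independent over `ℂ` (coordinates in a fundamental system, see GA4); but the `n + 1` vectors
`(f_{v_j}(ρ_i))_i` of `ℂ ^ n` are dependent, and a relation between them gives a relation between the
images of the `tchi θ (v j)` by GA3 for the field `ℂ`. -/
def S_UP : Prop := ∀ (M : Type u) [Field M] (N : Type v) [Field N] [NumberField N] [Algebra M N]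
  [Fintype (N ≃ₐ[M] N)] (E : Type w) [Field E] (ε : E →+* ℂ) (θ : (N ≃ₐ[M] N) →* Eˣ) (n : ℕ)
  (ρ : Fin n → N →+* ℂ),
  (∀ σ : N →+* ℂ, (∃ c : N ≃ₐ[M] N, ComplexEmbedding.conjugate σ = σ.comp (c : N →+* N) ∧
      θ c ≠ 1) ∨
    ∃ i, ∃ g : N ≃ₐ[M] N, σ = (ρ i).comp (g : N →+* N) ∨
      ComplexEmbedding.conjugate σ = (ρ i).comp (g : N →+* N)) →
  ∀ v : Fin (n + 1) → Additive (𝓞 N)ˣ, ∃ e : Fin (n + 1) → E, e ≠ 0 ∧
    ∑ j, e j • tchi θ (v j) = 0

/-- **FR** (failure gives a relation between the rows), from GA1, GA7, UP. `GA1` gives `E`, `χ'`,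
`lam`; take `ε = ιinf ∘ lam` (or any embedding), `ρ_i = ιinf ∘ τ_i`. A CM type of the totally
complex field `K` of degree `2 n` has `n` elements, so `S` is the set of the `ιinf τ_i|K`, and for every
`σ : H → ℂ` the restriction of `σ` or of `conj σ` to `K` is in `S`; by GA7 the hypothesis of UP holds.
Put `r(u) = (tw χ (logUnits Λ (ιp τ_i)) u)_i ∈ k ^ n`. If there is no `c`, the `r(u)` span `k ^ n`; let
`r(u_1), ..., r(u_n)` be a basis. For every `u` UP gives a relation between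
`tchi χ' u_1, ..., tchi χ' u_n, tchi χ' u`, with a nonzero coefficient of `tchi χ' u`
(otherwise apply `Phi (ιp ∘ lam) (logUnits _ _)`, `Phi_eq_tw`), so `tchi χ' u` is in the `E`-span of
the `tchi χ' u_j`. Let `x = e_χ(y) ≠ 0` be killed by `logSigma` (as in GA5,
`Pool/Agent/Helper45/SL/GA5.lean`), `x = ∑_j y_j z_j` with `z_j` the image of `tchi χ' u_j` in `k ⊗ U` and
`y_j ∈ k`; then `∑_j y_j r(u_j) = 0`, so `y = 0` and `x = 0`. -/
def S_FR : Prop := ∀ (K : Type u) [Field K] [NumberField K] [IsTotallyComplex K] (H : Type v)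
  [Field H] [NumberField H] [Algebra K H] [IsGalois K H] [Fintype (H ≃ₐ[K] H)] (Ω : Type w)
  [Field Ω] [CharZero Ω] [IsAlgClosed Ω] (p : ℕ) [Fact p.Prime] (k : Type x) [NormedField k]
  [NormedAlgebra ℚ_[p] k] [IsUltrametricDist k] [CompleteSpace k] (ιinf : Ω →+* ℂ) (ιp : Ω →+* k)
  (S : Set (K →+* ℂ)) (χ : (H ≃ₐ[K] H) →* kˣ) (Λ : IwasawaLog p k) (n : ℕ)
  (τ : Fin n → H →+* Ω), finrank ℚ K = 2 * n → IsCMType S →
  ¬ InjectiveOn (finrank K H) χ unitsHom (logSigma ιinf ιp S Λ) →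
  (∀ i, ιinf.comp ((τ i).comp (algebraMap K H)) ∈ S) →
  Function.Injective (fun i ↦ (τ i).comp (algebraMap K H)) →
  ∃ c : Fin n → k, c ≠ 0 ∧ ∀ u, ∑ i, c i * tw χ (logUnits Λ (ιp.comp (τ i))) u = 0

/-- **FN** (the same on the level of `N`), from FR, NB1, NB2. As FRN
(`Pool/Agent/Helper56/SLC/FRN.lean`): let `θK` be the character `g ↦ θ(g)` of `Gal(N/K)`; by NB1 and FR
`∑_i c_i tw θK (logUnits Λ (ιp τ_i)) v = 0` for all `v`, and by NB2
`tw θ _ v = tw θK _ v + θ(s⁻¹) tw θK _ (s v)`; the same for `θ'`. -/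
def S_FN : Prop := ∀ (F : Type u) [Field F] (K : Type v) [Field K] [NumberField K]
  [IsTotallyComplex K] (H : Type w) [Field H] [NumberField H] (N : Type x) [Field N]
  [NumberField N] [Algebra F K] [Algebra K H] [Algebra H N] [Algebra F N] [Algebra K N]
  [IsScalarTower F K N] [IsScalarTower K H N] [FiniteDimensional F N] [IsGalois F N]
  [IsGalois K H] [Fintype (N ≃ₐ[F] N)] (Ω : Type y) [Field Ω] [CharZero Ω] [IsAlgClosed Ω]
  (p : ℕ) [Fact p.Prime] (k : Type z) [NormedField k] [NormedAlgebra ℚ_[p] k]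
  [IsUltrametricDist k] [CompleteSpace k] (ιinf : Ω →+* ℂ) (ιp : Ω →+* k) (S : Set (K →+* ℂ))
  (χ : (H ≃ₐ[K] H) →* kˣ) (Λ : IwasawaLog p k) (θ θ' : (N ≃ₐ[F] N) →* kˣ) (n : ℕ)
  (τ : Fin n → N →+* Ω),
  finrank F K = 2 → finrank ℚ K = 2 * n → IsCMType S → Compat χ θ → Compat χ θ' →
  ¬ InjectiveOn (finrank K H) χ unitsHom (logSigma ιinf ιp S Λ) →
  (∀ i, ιinf.comp ((τ i).comp (algebraMap K N)) ∈ S) →
  Function.Injective (fun i ↦ (τ i).comp (algebraMap K N)) →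
  ∃ c : Fin n → k, c ≠ 0 ∧ (∀ v, ∑ i, c i * vec Λ θ (fun i ↦ ιp.comp (τ i)) v i = 0) ∧
    (∀ v, ∑ i, c i * vec Λ θ' (fun i ↦ ιp.comp (τ i)) v i = 0)

/-- **RX** (relation with explicit signs), from FN, GA7. `F` is totally real of degree `n`,
`K/F` quadratic and totally complex. For every `i` let `g_i = 1` if `ιinf τ_i ∈ S` on `K`, and let
`g_i ∈ Gal(N/F)` with `τ_i g_i = τ'` where `ιinf τ' = conj (ιinf τ_i)` otherwise (GA7 for `N/F` and
`Ω`: `exists_lift_embedding` gives `τ'`, and `τ' = τ_i` on `F` because `F` is totally real); in the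
second case `ιinf τ_i g_i = conj (ιinf τ_i)` is in `S` on `K`, and `g_i` is not trivial on `K`
(`conjugate_ne`), so `θ'(g_i) = -θ(g_i)` (Twist). Apply FN to the `τ_i g_i`: their restrictions to `F` are
those of the `τ_i`, so they are different on `K`. By `tw_logUnits_comp`
`vec θ (τ g) v i = θ(g_i) vec θ τ v i`, `vec θ' (τ g) v i = θ'(g_i) vec θ' τ v i`; the new coefficients are
`c_i θ(g_i)`. -/
def S_RX : Prop := ∀ (F : Type u) [Field F] [NumberField F] [IsTotallyReal F] (K : Type v)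
  [Field K] [NumberField K] [IsTotallyComplex K] (H : Type w) [Field H] [NumberField H]
  (N : Type x) [Field N] [NumberField N] [Algebra F K] [Algebra K H] [Algebra H N] [Algebra F N]
  [Algebra K N] [IsScalarTower F K N] [IsScalarTower K H N] [IsGalois F N] [IsGalois K H]
  [Fintype (N ≃ₐ[F] N)] (Ω : Type y) [Field Ω] [CharZero Ω] [IsAlgClosed Ω] (p : ℕ)
  [Fact p.Prime] (k : Type z) [NormedField k] [NormedAlgebra ℚ_[p] k] [IsUltrametricDist k]
  [CompleteSpace k] (ιinf : Ω →+* ℂ) (ιp : Ω →+* k) (S : Set (K →+* ℂ))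
  (χ : (H ≃ₐ[K] H) →* kˣ) (Λ : IwasawaLog p k) (θ θ' : (N ≃ₐ[F] N) →* kˣ) (n : ℕ)
  (τ : Fin n → N →+* Ω) (e : Fin n → k),
  finrank F K = 2 → finrank ℚ F = n → IsCMType S → Compat χ θ → Compat χ θ' → Twist K θ θ' →
  ¬ InjectiveOn (finrank K H) χ unitsHom (logSigma ιinf ιp S Λ) →
  Function.Injective (fun i ↦ (τ i).comp (algebraMap F N)) →
  (∀ i, (ιinf.comp ((τ i).comp (algebraMap K N)) ∈ S → e i = 1) ∧
    (ιinf.comp ((τ i).comp (algebraMap K N)) ∉ S → e i = -1)) →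
  ∃ c : Fin n → k, c ≠ 0 ∧ (∀ v, ∑ i, c i * vec Λ θ (fun i ↦ ιp.comp (τ i)) v i = 0) ∧
    (∀ v, ∑ i, c i * (e i * vec Λ θ' (fun i ↦ ιp.comp (τ i)) v i) = 0)

/-- **FRAME** (change of the frame), from GA7. `F` has degree `n`, `k` is algebraically closed: the
restrictions of the `σ m`, as well as those of the `σ' m`, are all the embeddings of `F` in `k`, so
there is a permutation `π` with `σ' (π m) = σ m` on `F`, and by GA7 `σ' (π m) = (σ m) ∘ g_m`. By
`tw_logUnits_comp` `vec θ σ' v (π m) = θ(g_m) vec θ σ v m`, and the same for `θ'`, with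
`θ'(g_m) = ± θ(g_m)`. -/
def S_FRAME : Prop := ∀ (F : Type u) [Field F] [NumberField F] (N : Type v) [Field N]
  [NumberField N] [Algebra F N] [IsGalois F N] [Fintype (N ≃ₐ[F] N)] (p : ℕ) [Fact p.Prime]
  (k : Type w) [NormedField k] [NormedAlgebra ℚ_[p] k] [IsAlgClosed k] (Λ : IwasawaLog p k)
  (n : ℕ) (σ σ' : Fin n → N →+* k), finrank ℚ F = n →
  Function.Injective (fun m ↦ (σ m).comp (algebraMap F N)) →
  Function.Injective (fun m ↦ (σ' m).comp (algebraMap F N)) →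
  ∃ (π : Equiv.Perm (Fin n)) (g : Fin n → (N ≃ₐ[F] N)), ∀ (θ : (N ≃ₐ[F] N) →* kˣ) v m,
    vec Λ θ σ' v (π m) = ((θ (g m) : kˣ) : k) * vec Λ θ σ v m

/-- **V1** (the part of a character which is even at one place only has dimension one), from GA1,
GA7, UP. GA1 gives `E`, `θ₁` with values in `E`; take `ε : E → ℂ` (`ε = ι' ∘ lam` for some
`ι' : Ω → ℂ`, see `exists_comp_eq`) and `ρ` an embedding of `N` above `s`. If `σ : N → ℂ` is above
`s`, then `σ = ρ ∘ g` by GA7; otherwise `conj σ = σ ∘ c` (GA7, `F` is totally real) and `θ(c) = -1`,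
so `θ₁ c ≠ 1`. UP (`n = 1`) gives `(e₀, e₁) ≠ 0` with `e₀ tchi θ₁ v + e₁ tchi θ₁ w = 0`; apply
`Phi (ιp ∘ lam) (logUnits Λ σ)` (`Phi_eq_tw`; lift `σ` to `Ω` is not needed). -/
def S_V1 : Prop := ∀ (F : Type u) [Field F] [NumberField F] [IsTotallyReal F] (N : Type v)
  [Field N] [NumberField N] [Algebra F N] [IsGalois F N] [Fintype (N ≃ₐ[F] N)] (Ω : Type w)
  [Field Ω] [CharZero Ω] [IsAlgClosed Ω] [Algebra.IsAlgebraic ℚ Ω] (p : ℕ) [Fact p.Prime]
  (k : Type x) [NormedField k] [NormedAlgebra ℚ_[p] k] (ιp : Ω →+* k) (Λ : IwasawaLog p k)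
  (θ : (N ≃ₐ[F] N) →* kˣ) (s : F →+* ℂ), EvenAt s θ → ∀ (σ σ' : N →+* k) v w,
    tw θ (logUnits Λ σ) v * tw θ (logUnits Λ σ') w =
      tw θ (logUnits Λ σ') v * tw θ (logUnits Λ σ) w

/-- **GB** (a good type gives a basis), from GA1, GA7, LOW, `S_DETP`. With `E`, `lam`, `χ'` of GA1,
`ε = ιinf ∘ lam`, `ρ_i = ιinf ∘ τ_i`: the places of the `ρ_i` on `K` are different (the `ιinf τ_i|K` are
different elements of the CM type `S`) and there is no `c ∈ Gal(H/K)` with `conj ρ_i = ρ_i ∘ c`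
(`K` is totally complex); `ε ∘ χ' ≠ 1`. By LOW the functions `u ↦ tw (ε ∘ χ') (archLog ρ_i) u` are
linearly independent and by `S_DETP` (`Pool/Agent/Helper17/SL/GoalsG.lean`, proved in
`Pool/Agent/Helper60/SL/DETP.lean`) there are `u_1, ..., u_n` with a nonzero determinant. So the
`tchi χ' u_j` are linearly independent over `E` (apply `Phi ε (archLog ρ_i)`, `Phi_eq_tw'`), and their
images in `k ⊗ U` are linearly independent over `k` (coordinates in a fundamental system, see GA4).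
Suppose `∑_j y_j tw χ (logUnits Λ (ιp τ_i)) u_j = 0` for all `i`; let `x = ∑_j y_j ⊗ u_j`. Every
`ℓ ∈ logSigma` is `logUnits Λ (ιp σ)` with `ιinf σ|K ∈ S`, so `σ = τ_i ∘ h` by GA7 (`S` has `n` elements,
it is the set of the `ιinf τ_i|K`) and `ℓ(e_χ x) = 0`. So `e_χ x = 0` by the hypothesis, `y = 0`. -/
def S_GB : Prop := ∀ (K : Type u) [Field K] [NumberField K] [IsTotallyComplex K] (H : Type v)
  [Field H] [NumberField H] [Algebra K H] [IsGalois K H] [Fintype (H ≃ₐ[K] H)] (Ω : Type w)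
  [Field Ω] [CharZero Ω] [IsAlgClosed Ω] (p : ℕ) [Fact p.Prime] (k : Type x) [NormedField k]
  [NormedAlgebra ℚ_[p] k] (ιinf : Ω →+* ℂ) (ιp : Ω →+* k) (S : Set (K →+* ℂ))
  (χ : (H ≃ₐ[K] H) →* kˣ) (Λ : IwasawaLog p k) (n : ℕ) (τ : Fin n → H →+* Ω), χ ≠ 1 →
  finrank ℚ K = 2 * n → IsCMType S →
  InjectiveOn (finrank K H) χ unitsHom (logSigma ιinf ιp S Λ) →
  (∀ i, ιinf.comp ((τ i).comp (algebraMap K H)) ∈ S) →
  Function.Injective (fun i ↦ (τ i).comp (algebraMap K H)) →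
  ∃ u : Fin n → Additive (𝓞 H)ˣ, LinearIndependent k
    (fun j ↦ (fun i ↦ tw χ (logUnits Λ (ιp.comp (τ i))) (u j) : Fin n → k))

/-- **INC** (units of `H` in `N`). In `tw θ ℓ (incl u) + tw θ' ℓ (incl u)` the terms of the `g` which
are not trivial on `K` cancel, the others are `2 θ(g⁻¹) ℓ(g (incl u)) = 2 χ(h⁻¹) ℓ(incl (h u))` if
`h = g|H` (`H/K` is normal); every `h` has `[N : H]` extensions. `C = 2 [N : H]`. -/
def S_INC : Prop := ∀ (F : Type u) [Field F] (K : Type v) [Field K] (H : Type w) [Field H]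
  [NumberField H] (N : Type x) [Field N] [NumberField N] [Algebra F K] [Algebra K H] [Algebra H N]
  [Algebra F N] [Algebra K N] [IsScalarTower F K N] [IsScalarTower K H N] [FiniteDimensional F N]
  [IsGalois F N] [IsGalois K H] [Fintype (N ≃ₐ[F] N)] [Fintype (H ≃ₐ[K] H)] (A : Type y)
  [Field A] [CharZero A] (χ : (H ≃ₐ[K] H) →* Aˣ) (θ θ' : (N ≃ₐ[F] N) →* Aˣ), finrank F K = 2 →
  Compat χ θ → Twist K θ θ' → ∃ C : A, C ≠ 0 ∧
    ∀ (ℓ : Additive (𝓞 N)ˣ →+ A) (u : Additive (𝓞 H)ˣ),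
      tw θ ℓ (inclUnits H N u) + tw θ' ℓ (inclUnits H N u) = C * tw χ (ℓ.comp (inclUnits H N)) u

/-- **RG** (rank from one good pair), from GB, INC, V1, GA7. Choose for every `i` an extension
`τ_i : N → Ω` of an element of `S` (`n` of them, different on `F`: a CM type contains exactly one
extension of every real embedding of `F`, `IsCMType.exists_mem`; use `exists_lift_embedding`,
`exists_extend_embedding`). GB (applied to the restrictions to `H`) and INC give `n` units `v_j` of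
`N` such that the `vec θ τ v_j + vec θ' τ v_j` are linearly independent, `τ` standing for the frame
`ιp ∘ τ_i`. By V1 all the `vec θ' τ v` are on a line. So the span of the `vec θ τ v` has dimension at
least `n - 1`: it contains `n - 1` independent vectors of this form
(`exists_linearIndependent`, `Submodule.span`). Here the frame is `ιp ∘ τ_i`; the general frame is
done by FRAME. -/
def S_RG : Prop := ∀ (F : Type u) [Field F] [NumberField F] [IsTotallyReal F] (K : Type v)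
  [Field K] [NumberField K] [IsTotallyComplex K] (H : Type w) [Field H] [NumberField H]
  (N : Type x) [Field N] [NumberField N] [Algebra F K] [Algebra K H] [Algebra H N] [Algebra F N]
  [Algebra K N] [IsScalarTower F K N] [IsScalarTower K H N] [IsGalois F N] [IsGalois K H]
  [Fintype (N ≃ₐ[F] N)] (Ω : Type y) [Field Ω] [CharZero Ω] [IsAlgClosed Ω]
  [Algebra.IsAlgebraic ℚ Ω] (p : ℕ) [Fact p.Prime] (k : Type z) [NormedField k]
  [NormedAlgebra ℚ_[p] k] (ιinf : Ω →+* ℂ) (ιp : Ω →+* k) (S : Set (K →+* ℂ))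
  (χ : (H ≃ₐ[K] H) →* kˣ) (Λ : IwasawaLog p k) (θ θ' : (N ≃ₐ[F] N) →* kˣ) (s : F →+* ℂ) (n : ℕ),
  finrank F K = 2 → finrank ℚ F = n → IsCMType S → χ ≠ 1 → Compat χ θ → Twist K θ θ' →
  EvenAt s θ' → InjectiveOn (finrank K H) χ unitsHom (logSigma ιinf ιp S Λ) →
  ∃ τ : Fin n → N →+* Ω, Function.Injective (fun i ↦ (τ i).comp (algebraMap F N)) ∧
    ∃ v : Fin (n - 1) → Additive (𝓞 N)ˣ,
      LinearIndependent k (fun j ↦ vec Λ θ (fun i ↦ ιp.comp (τ i)) (v j))

/-- **ND** (non degeneracy), from SPL, TRANS, GA3. Let `E`, `lam`, `ε : E → ℂ` (some embedding,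
e.g. `ι' ∘ lam`) and suppose that the sum is `0`. TRANS gives, for all `ι' : Ω → ℂ`,
`∑_m (f m (ι' τ_m) + g m (ι' τ_m)) = 0` with `f m ρ = ε(t_m) Phi ε (archLog ρ) (∑_j x_j tchi θ (v j))` and
`g m ρ = ε(t_m) ∑_i ε(y_i e_im) Phi ε (archLog ρ) (tchi (θ η_i) (w i))` (expand the `tchi` with
`Phi_tchi`, see `htrans` in the proof of `core`). The hypotheses of SPL hold (`archLog_conj`,
`archLog_comp`, `Phi_tchi_comp`, OddAt, EvenAt). Take `m` with `t_m ≠ 0`. First,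
`Phi ε (archLog ρ) (∑_j x_j tchi θ (v j)) = 0` for all `ρ`, so `∑_j x_j tchi θ (v j) = 0` by GA3 and
`x = 0` by hypothesis. Second, `∑_i ε(y_i e_im) B_i(ρ) = 0` for all `ρ`, with
`B_i(ρ) = Phi ε (archLog ρ) (tchi (θ η_i) (w i))`, `B_i(ρ ∘ g) = ε(θ η_i(g)) B_i(ρ)`; by Dedekind
(`dedekind`; the characters `θ η_i` are different) `y_i B_i(ρ) = 0` for all `i`, `ρ`; if `y_i ≠ 0` then
`tchi (θ η_i) (w i) = 0` by GA3. -/
def S_ND : Prop := ∀ (F : Type u) [Field F] [NumberField F] [IsTotallyReal F] (N : Type v)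
  [Field N] [NumberField N] [Algebra F N] [IsGalois F N] [Fintype (N ≃ₐ[F] N)] (Ω : Type w)
  [Field Ω] [CharZero Ω] [IsAlgClosed Ω] [Algebra.IsAlgebraic ℚ Ω] (p : ℕ) [Fact p.Prime]
  (k : Type x) [NormedField k] [NormedAlgebra ℚ_[p] k] [IsUltrametricDist k] [CompleteSpace k]
  (ιp : Ω →+* k) (Λ : IwasawaLog p k) (E : Type y) [Field E] [NumberField E] (lam : E →+* Ω)
  (θ : (N ≃ₐ[F] N) →* Eˣ) (J D n : ℕ) (η : Fin D → (N ≃ₐ[F] N) →* Eˣ) (s : F →+* ℂ)
  (τ : Fin n → N →+* Ω) (v : Fin J → Additive (𝓞 N)ˣ) (w : Fin D → Additive (𝓞 N)ˣ)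
  (e : Fin D → Fin n → E), 3 ≤ n → Function.Injective (fun i ↦ (τ i).comp (algebraMap F N)) →
  OddAt s θ → (∀ i, EvenAt s (θ * η i)) → Function.Injective η → (∀ i m, e i m ≠ 0) →
  LinearIndependent E (fun j ↦ tchi θ (v j)) → (∀ i, tchi (θ * η i) (w i) ≠ 0) →
  ∀ (t : Fin n → E) (x : Fin J → E) (y : Fin D → E), t ≠ 0 → (x ≠ 0 ∨ y ≠ 0) →
    ∑ m, ιp (lam (t m)) *
      (∑ j, ιp (lam (x j)) * Phi (ιp.comp lam) (logUnits Λ (ιp.comp (τ m))) (tchi θ (v j)) +
        ∑ i, ιp (lam (y i * e i m)) *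
          Phi (ιp.comp lam) (logUnits Λ (ιp.comp (τ m))) (tchi (θ * η i) (w i))) ≠ 0

/-- **FIN** (too many relations are contradictory), from RANK, ND, GA1, NV. Lift the frame:
`σ m = ιp ∘ τ m` (`exists_lift_embedding`). GA1 gives `E`, `lam`, `θ₁` with values in `E`; the values
of `η i` are `±1`, so `η i` comes from a character `η₁ i` with values in `E`. The annihilator in `k ^ n`
of the `n - 1` independent vectors `vec θ σ (v j)` is a line, so the relations `(c_i, e_i)` have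
proportional `c_i`, all multiples of the same `c ≠ 0`, and `∑_m c_m e_im vec (θ η_i) σ w m = 0` for all
`w`. Choose `w i` with `tchi (θ₁ η₁ i) (w i) ≠ 0` (NV for `ε ∘ (θ₁ η₁ i)` and an embedding `ρ` of `N`
above `s`; this character is not trivial: it is `-1` at the complex conjugations above the
other real embeddings). The `n × (n - 1 + D)` matrix `M` with the columns `vec θ σ (v j)` and
`e_im vec (θ η_i) σ (w i) m` is killed by the row `c`, so it is a product `X Z` with `n - 1` in the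
middle (if `c_{m₀} ≠ 0`, the row `m₀` is a combination of the other ones). RANK with
`r = n - 1`, `l = n - 1 + D` (`r (n + l) < n l` iff `(n - 1) ^ 2 < D`) contradicts ND: the
`tchi θ₁ (v j)` are independent over `E` because the `vec θ σ (v j)` are independent over `k`. -/
def S_FIN : Prop := ∀ (F : Type u) [Field F] [NumberField F] [IsTotallyReal F] (N : Type v)
  [Field N] [NumberField N] [Algebra F N] [IsGalois F N] [Fintype (N ≃ₐ[F] N)] (Ω : Type w)
  [Field Ω] [CharZero Ω] [IsAlgClosed Ω] [Algebra.IsAlgebraic ℚ Ω] (p : ℕ) [Fact p.Prime]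
  (k : Type x) [NormedField k] [NormedAlgebra ℚ_[p] k] [IsUltrametricDist k] [CompleteSpace k]
  (ιp : Ω →+* k) (Λ : IwasawaLog p k) (θ : (N ≃ₐ[F] N) →* kˣ) (D n : ℕ)
  (η : Fin D → (N ≃ₐ[F] N) →* kˣ) (s : F →+* ℂ) (σ : Fin n → N →+* k), 3 ≤ n →
  Function.Injective (fun i ↦ (σ i).comp (algebraMap F N)) → OddAt s θ →
  (∀ i, EvenAt s (θ * η i)) → Function.Injective η → (∀ i g, η i g = 1 ∨ η i g = -1) →
  (∃ v : Fin (n - 1) → Additive (𝓞 N)ˣ, LinearIndependent k (fun j ↦ vec Λ θ σ (v j))) →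
  (∀ i, RelAt Λ θ (θ * η i) σ) → (n - 1) ^ 2 < D → False

/-- **R3** (the rank in degree `3`), from RANK (`d = 3`, `l = 2`, `r = 1`), ND (with `D = 0`), GA1,
LOW, `S_DETP`. `σ m = ιp ∘ τ m`. With `E`, `lam`, `θ₁` of GA1 and `ε = ι' ∘ lam`: let `ρ₁`, `ρ₂` be
embeddings of `N` above the two real embeddings of `F` different from `s`; LOW and `S_DETP` give
`v_1, v_2` with a nonzero archimedean determinant, so `tchi θ₁ v_1`, `tchi θ₁ v_2` are linearly
independent over `E`. If `vec θ σ v_1`, `vec θ σ v_2` are linearly dependent over `k`, the `3 × 2` matrix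
is a product `X Z` with `r = 1` and RANK (`1 * 5 < 3 * 2`) contradicts ND. -/
def S_R3 : Prop := ∀ (F : Type u) [Field F] [NumberField F] [IsTotallyReal F] (N : Type v)
  [Field N] [NumberField N] [Algebra F N] [IsGalois F N] [Fintype (N ≃ₐ[F] N)] (Ω : Type w)
  [Field Ω] [CharZero Ω] [IsAlgClosed Ω] [Algebra.IsAlgebraic ℚ Ω] (p : ℕ) [Fact p.Prime]
  (k : Type x) [NormedField k] [NormedAlgebra ℚ_[p] k] [IsUltrametricDist k] [CompleteSpace k]
  (ιp : Ω →+* k) (Λ : IwasawaLog p k) (θ : (N ≃ₐ[F] N) →* kˣ) (s : F →+* ℂ)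
  (σ : Fin 3 → N →+* k), finrank ℚ F = 3 →
  Function.Injective (fun i ↦ (σ i).comp (algebraMap F N)) → OddAt s θ →
  ∃ v : Fin 2 → Additive (𝓞 N)ˣ, LinearIndependent k (fun j ↦ vec Λ θ σ (v j))

/-- **TY** (two types which differ at one place), from RX, NV/NVP. The annihilator of the
`n - 1` independent vectors `vec θ τ (v j)` is a line `k c₀`; let `c₀ m₀ ≠ 0`. Let `S`, `S'` be CM types
which differ exactly at `ιinf τ_{m₀}|K`, and suppose that both fail. RX gives `c`, `c'`, multiples of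
`c₀`, so `∑ c₀ m (e m * vec θ' τ v m) = 0` and `∑ c₀ m (e' m * vec θ' τ v m) = 0` with `e' m = e m` for
`m ≠ m₀` (if `ιinf τ_m|K = conj (ιinf τ_{m₀}|K)` then `τ_m = τ_{m₀}` on `F`) and `e' m₀ = - e m₀`. So
`vec θ' τ v m₀ = 0` for all `v`, which contradicts NVP (`ρ` above `s`, `θ'` is even there; and
`θ' ≠ 1` since it is `-1` at the complex conjugations of the other real embeddings, `n ≥ 3`). -/
def S_TY : Prop := ∀ (F : Type u) [Field F] [NumberField F] [IsTotallyReal F] (K : Type v)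
  [Field K] [NumberField K] [IsTotallyComplex K] (H : Type w) [Field H] [NumberField H]
  (N : Type x) [Field N] [NumberField N] [Algebra F K] [Algebra K H] [Algebra H N] [Algebra F N]
  [Algebra K N] [IsScalarTower F K N] [IsScalarTower K H N] [IsGalois F N] [IsGalois K H]
  [Fintype (N ≃ₐ[F] N)] (Ω : Type y) [Field Ω] [CharZero Ω] [IsAlgClosed Ω]
  [Algebra.IsAlgebraic ℚ Ω] (p : ℕ) [Fact p.Prime] (k : Type z) [NormedField k]
  [NormedAlgebra ℚ_[p] k] [IsUltrametricDist k] [CompleteSpace k] (ιinf : Ω →+* ℂ)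
  (ιp : Ω →+* k) (χ : (H ≃ₐ[K] H) →* kˣ) (Λ : IwasawaLog p k) (θ θ' : (N ≃ₐ[F] N) →* kˣ)
  (s : F →+* ℂ) (n : ℕ) (τ : Fin n → N →+* Ω),
  finrank F K = 2 → finrank ℚ F = n → 3 ≤ n → Compat χ θ → Compat χ θ' → Twist K θ θ' →
  EvenAt s θ' → Function.Injective (fun i ↦ (τ i).comp (algebraMap F N)) →
  (∃ v : Fin (n - 1) → Additive (𝓞 N)ˣ,
    LinearIndependent k (fun j ↦ vec Λ θ (fun i ↦ ιp.comp (τ i)) (v j))) →
  ∃ φ₀ : K →+* ℂ, ∀ S : Set (K →+* ℂ), IsCMType S →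
    InjectiveOn (finrank K H) χ unitsHom (logSigma ιinf ιp S Λ) ∨
    InjectiveOn (finrank K H) χ unitsHom
      (logSigma ιinf ιp (symmDiff S {φ₀, ComplexEmbedding.conjugate φ₀}) Λ)

end Pool.Agent.Helper17.SLD
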