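import Pool.Agent.Helper17.SLD.Conc

/-!
# Project SLD: assembly, the theorem from the goals
-/

namespace Pool.Agent.Helper17.SLD

open Pool.Agent.Helper17.SL Pool.Agent.Helper42.SLC
open Pool.Agent.Helper51.SigLeo Pool.Agent.Helper51.SixExp NumberField Module TensorProduct

set_option linter.unusedSectionVars false
set_option linter.style.haveILetI false

universe u v w x y z

section

variable {F : Type u} {Ω : Type w} [Field F] [NumberField F] [IsTotallyReal F] [Field Ω]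
  [CharZero Ω] [Algebra F Ω]

/-- Exactly one real place of `F` is complex in `E`: the character is odd at one place. -/
theorem exists_oddAt (hGA7 : S_GA7.{u, w, 0}) {E N : IntermediateField F Ω}
    [FiniteDimensional F E] [IsGalois F E] [FiniteDimensional F N] (hEN : E ≤ N)
    (hE : ∃! v : InfinitePlace F, ∃ w : InfinitePlace E, w.IsComplex ∧
      w.comap (algebraMap F E) = v)
    {A : Type*} [Field A] [CharZero A] (ψ : (E ≃ₐ[F] E) →* Aˣ) (hψ : Function.Injective ψ) :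
    ∃ s : F →+* ℂ, OddAt s (ψ.comp (resE hEN)) := by
  classical
  obtain ⟨v, ⟨w, hw, hwv⟩, huniq⟩ := hE
  refine ⟨v.embedding, fun ρ c hc ↦ ?_⟩
  have hNFE : NumberField E := NumberField.of_module_finite F E
  set φ : E →+* ℂ := ρ.comp (IntermediateField.inclusion hEN : E →+* N) with hφ
  set cE : E ≃ₐ[F] E := resE hEN c with hcE
  have hφF : φ.comp (algebraMap F E) = ρ.comp (algebraMap F N) := by
    ext x
    rfl
  have hcφ : ComplexEmbedding.conjugate φ = φ.comp (cE : E →+* E) := by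
    ext x
    have h1 : c (IntermediateField.inclusion hEN x) = IntermediateField.inclusion hEN (cE x) :=
      Subtype.ext (resE_spec hEN c x).symm
    have h2 := RingHom.congr_fun hc (IntermediateField.inclusion hEN x)
    show star (ρ (IntermediateField.inclusion hEN x)) = ρ (IntermediateField.inclusion hEN (cE x))
    rw [← h1]
    exact h2
  -- places and embeddings of `F`
  have hreal : ∀ a b : F →+* ℂ, InfinitePlace.mk a = InfinitePlace.mk b → a = b := by
    intro a b h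
    rcases InfinitePlace.mk_eq_iff.mp h with h1 | h1
    · exact h1
    · rw [conjugate_real] at h1
      exact h1
  constructor
  · intro hs
    have h1 : cE ≠ 1 := by
      intro h1
      have hφr : ComplexEmbedding.conjugate φ = φ := by
        rw [hcφ, h1]
        rfl
      have hw1 : (w.embedding).comp (algebraMap F E) = φ.comp (algebraMap F E) := by
        rw [hφF, hs]
        apply hreal
        rw [InfinitePlace.mk_embedding, ← hwv, ← InfinitePlace.comap_mk,
          InfinitePlace.mk_embedding]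
      obtain ⟨g, hg⟩ := hGA7 F E ℂ φ w.embedding hw1.symm
      rw [← InfinitePlace.not_isReal_iff_isComplex] at hw
      apply hw
      rw [InfinitePlace.isReal_iff, ComplexEmbedding.isReal_iff, hg,
        ← ComplexEmbedding.conjugate_comp, hφr]
    have h2 : cE * cE = 1 := by
      ext x
      apply Subtype.ext_iff.mp
      apply φ.injective
      have h3 : ∀ z, star (φ z) = φ (cE z) := fun z ↦ RingHom.congr_fun hcφ z
      show φ (cE (cE x)) = φ x
      rw [← h3, ← h3, star_star]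
    have h3 : ψ cE * ψ cE = 1 := by rw [← map_mul, h2, map_one]
    have h4 : ((ψ cE : Aˣ) : A) * ((ψ cE : Aˣ) : A) = 1 := by
      rw [← Units.val_mul, h3, Units.val_one]
    show ψ cE = -1
    rcases mul_self_eq_one_iff.mp h4 with h5 | h5
    · exact absurd (hψ ((Units.ext h5).trans (map_one ψ).symm)) h1
    · exact Units.ext h5
  · intro hs
    have hφr : ComplexEmbedding.conjugate φ = φ := by
      by_contra hcon
      apply hs
      have h1 : (InfinitePlace.mk φ).IsComplex := by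
        rw [← InfinitePlace.not_isReal_iff_isComplex]
        intro hr
        exact hcon (ComplexEmbedding.isReal_iff.mp (InfinitePlace.isReal_of_mk_isReal hr))
      have h2 := huniq (InfinitePlace.mk (φ.comp (algebraMap F E)))
        ⟨InfinitePlace.mk φ, h1, InfinitePlace.comap_mk _ _⟩
      rw [← hφF]
      apply hreal
      rw [h2, InfinitePlace.mk_embedding]
    have h1 : cE = 1 := by
      ext x
      apply Subtype.ext_iff.mp
      apply φ.injective
      have h3 := RingHom.congr_fun hcφ x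
      rw [hφr] at h3
      exact h3.symm
    show ψ cE = 1
    rw [h1, map_one]

/-- The twist by the sign of a CM field is even at one place. -/
theorem evenAt_mul {K N : IntermediateField F Ω} (hKN : K ≤ N) (hK : QuadraticCM K) {A : Type*}
    [Field A] {θ η : (N ≃ₐ[F] N) →* Aˣ} {s : F →+* ℂ} (hθ : OddAt s θ) (hη : IsSign K η) :
    EvenAt s (θ * η) := by
  intro ρ c hc
  obtain ⟨hK2, hCM⟩ := hK
  have hfdK : FiniteDimensional F K := FiniteDimensional.of_finrank_pos (by omega)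
  have hNFK : NumberField K := NumberField.of_module_finite F K
  letI : Algebra K N := algIn hKN
  obtain ⟨x, hx⟩ := exists_moved (K := K) ρ c hc
  have h1 : η c = -1 := hη.2 c ⟨algebraMap K N x, x.2, hx⟩
  obtain ⟨h2, h3⟩ := hθ ρ c hc
  refine ⟨fun h ↦ ?_, fun h ↦ ?_⟩
  · rw [MonoidHom.mul_apply, h1, h2 h, neg_mul_neg, one_mul]
  · rw [MonoidHom.mul_apply, h1, h3 h, one_mul]

variable [IsAlgClosed Ω] [Algebra.IsAlgebraic F Ω]

/-- The failure of one field gives the relation. -/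
theorem rel_concrete {k : Type x} [NormedField k] (hRX : S_RX.{u, w, w, w, w, x})
    (hFRAME : S_FRAME.{u, w, x}) {E K N : IntermediateField F Ω} [FiniteDimensional F E]
    [IsGalois F E] [FiniteDimensional F N] [IsGalois F N] [Fintype (N ≃ₐ[F] N)] (hEN : E ≤ N)
    (hKN : K ≤ N) (hK : QuadraticCM K) (p : ℕ) [Fact p.Prime] [NormedAlgebra ℚ_[p] k]
    [IsUltrametricDist k] [CompleteSpace k] [IsAlgClosed k] (L₀ : IwasawaLog p k)
    (ψ : (E ≃ₐ[F] E) →* kˣ) (η : (N ≃ₐ[F] N) →* kˣ) (hη : IsSign K η) {n : ℕ}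
    (hn : finrank ℚ F = n) (ιinf : Ω →+* ℂ) (ιp : Ω →+* k) (S : Set (K →+* ℂ))
    (hS : IsCMType S) (hf : ¬ HoldsAt E K p ψ ιinf ιp S) (σ : Fin n → N →+* k)
    (hσ : Function.Injective (fun m ↦ (σ m).comp (algebraMap F N))) :
    RelAt L₀ (ψ.comp (resE hEN)) (ψ.comp (resE hEN) * η) σ := by
  classical
  obtain ⟨hK2, hCM⟩ := hK
  have hfdK : FiniteDimensional F K := FiniteDimensional.of_finrank_pos (by omega)
  have hNFK : NumberField K := NumberField.of_module_finite F K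
  have hNFE : NumberField E := NumberField.of_module_finite F E
  have hNFN : NumberField N := NumberField.of_module_finite F N
  have hfdH := finiteDimensional_comp E K
  have hNFH : NumberField (Comp E K) := NumberField.of_module_finite K _
  have hnH := normal_comp E K
  have hGH : IsGalois K (Comp E K) := ⟨⟩
  obtain ⟨χ₀, hχ₀, -⟩ := exists_chi (E := E) (K := K) ψ
  rw [holdsAt_iff hK2 p ψ ιinf ιp S χ₀ L₀ hχ₀] at hf
  letI : Algebra K N := algIn hKN
  letI : Algebra (Comp E K) N := algComp hEN hKN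
  haveI : IsScalarTower F K N := IsScalarTower.of_algebraMap_eq fun _ ↦ rfl
  haveI : IsScalarTower K (Comp E K) N := IsScalarTower.of_algebraMap_eq fun _ ↦ rfl
  have h0 := compat_theta hEN hKN ψ χ₀ hχ₀
  exact relAt_of_fail hRX hFRAME p k ιinf ιp S χ₀ L₀ _ _ n hK2 hn hS h0
    (compat_mul hEN hKN χ₀ _ η hη h0) (hη.twist hKN _) hf σ hσ

/-- The rank. -/
theorem rank_concrete {k : Type x} [NormedField k] (hRG : S_RG.{u, w, w, w, w, x})
    (hR3 : S_R3.{u, w, w, x}) (hFRAME : S_FRAME.{u, w, x}) (hGA7 : S_GA7.{u, w, 0})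
    {E K N : IntermediateField F Ω} [FiniteDimensional F E]
    [IsGalois F E] [FiniteDimensional F N] [IsGalois F N] [Fintype (N ≃ₐ[F] N)] (hEN : E ≤ N)
    (hKN : K ≤ N) (p : ℕ) [Fact p.Prime] [NormedAlgebra ℚ_[p] k]
    [IsUltrametricDist k] [CompleteSpace k] [IsAlgClosed k] (L₀ : IwasawaLog p k)
    (ψ : (E ≃ₐ[F] E) →* kˣ) {s : F →+* ℂ} (hodd : OddAt s (ψ.comp (resE hEN))) {n : ℕ}
    (hn : finrank ℚ F = n) (hn3 : 3 ≤ n)
    (hgood : n = 3 ∨ (QuadraticCM K ∧ ∃ (ιinf : Ω →+* ℂ) (ιp : Ω →+* k) (S : Set (K →+* ℂ)),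
      IsCMType S ∧ HoldsAt E K p ψ ιinf ιp S)) (ιp₀ : Ω →+* k) (σ : Fin n → N →+* k)
    (hσ : Function.Injective (fun m ↦ (σ m).comp (algebraMap F N))) :
    ∃ v : Fin (n - 1) → Additive (𝓞 N)ˣ,
      LinearIndependent k (fun j ↦ vec L₀ (ψ.comp (resE hEN)) σ (v j)) := by
  classical
  have hchar : CharZero k := charZero_of_padic p (k := k)
  have hNFN : NumberField N := NumberField.of_module_finite F N
  have hQΩ : Algebra.IsAlgebraic ℚ Ω := Algebra.IsAlgebraic.trans ℚ F Ω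
  rcases hgood with rfl | ⟨hK, ιinf, ιp, S, hS, hg⟩
  · exact hR3 F N Ω p k ιp₀ L₀ _ s σ hn hσ hodd
  · have hK' := hK
    obtain ⟨hK2, hCM⟩ := hK'
    have hfdK : FiniteDimensional F K := FiniteDimensional.of_finrank_pos (by omega)
    have hNFK : NumberField K := NumberField.of_module_finite F K
    have hNFE : NumberField E := NumberField.of_module_finite F E
    have hfdH := finiteDimensional_comp E K
    have hNFH : NumberField (Comp E K) := NumberField.of_module_finite K _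
    have hnH := normal_comp E K
    have hGH : IsGalois K (Comp E K) := ⟨⟩
    obtain ⟨χ₀, hχ₀, -⟩ := exists_chi (E := E) (K := K) ψ
    rw [holdsAt_iff hK2 p ψ ιinf ιp S χ₀ L₀ hχ₀] at hg
    obtain ⟨η, hη⟩ := exists_isSign (N := N) k hKN hK2
    letI : Algebra K N := algIn hKN
    letI : Algebra (Comp E K) N := algComp hEN hKN
    haveI : IsScalarTower F K N := IsScalarTower.of_algebraMap_eq fun _ ↦ rfl
    haveI : IsScalarTower K (Comp E K) N := IsScalarTower.of_algebraMap_eq fun _ ↦ rfl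
    have h0 := compat_theta hEN hKN ψ χ₀ hχ₀
    have hne := chi_ne_one χ₀ _ s h0 hodd hGA7 hK2 (by omega)
    obtain ⟨τ, hτ, v, hv⟩ := hRG F K (Comp E K) N Ω p k ιinf ιp S χ₀ L₀ _ (ψ.comp (resE hEN) * η)
      s n hK2 hn hS hne h0 (hη.twist hKN _) (evenAt_mul hKN hK hodd hη) hg
    refine ⟨v, rank_change hFRAME hn hσ ?_ hv⟩
    intro i j hij
    apply hτ
    ext y
    apply ιp.injective
    exact RingHom.congr_fun hij y

/-- Finite families of fields which fail. -/
theorem family {k : Type x} [NormedField k] (hFIN : S_FIN.{u, w, w, x})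
    (hRX : S_RX.{u, w, w, w, w, x}) (hRG : S_RG.{u, w, w, w, w, x})
    (hR3 : S_R3.{u, w, w, x}) (hFRAME : S_FRAME.{u, w, x}) (hGA7 : S_GA7.{u, w, 0})
    {E K₀ : IntermediateField F Ω} [FiniteDimensional F E] [IsGalois F E]
    [FiniteDimensional F K₀] [Normal F K₀] (p : ℕ) [Fact p.Prime] [NormedAlgebra ℚ_[p] k]
    [IsUltrametricDist k] [CompleteSpace k] [IsAlgClosed k] (L₀ : IwasawaLog p k)
    (hE : ∃! v : InfinitePlace F, ∃ w : InfinitePlace E, w.IsComplex ∧
      w.comap (algebraMap F E) = v)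
    (ψ : (E ≃ₐ[F] E) →* kˣ) (hψ : Function.Injective ψ) {n : ℕ}
    (hn : finrank ℚ F = n) (hn3 : 3 ≤ n)
    (hgood : n = 3 ∨ (QuadraticCM K₀ ∧ ∃ (ιinf : Ω →+* ℂ) (ιp : Ω →+* k) (S : Set (K₀ →+* ℂ)),
      IsCMType S ∧ HoldsAt E K₀ p ψ ιinf ιp S)) {D : ℕ} (K : Fin D → IntermediateField F Ω)
    (hinj : Function.Injective K) (hK : ∀ i, QuadraticCM (K i))
    (hf : ∀ i, ∃ (ιinf : Ω →+* ℂ) (ιp : Ω →+* k) (S : Set (K i →+* ℂ)),
      IsCMType S ∧ ¬ HoldsAt E (K i) p ψ ιinf ιp S) (hD : (n - 1) ^ 2 < D) : False := by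
  classical
  have hchar : CharZero k := charZero_of_padic p (k := k)
  have hQΩ : Algebra.IsAlgebraic ℚ Ω := Algebra.IsAlgebraic.trans ℚ F Ω
  have hfdK : ∀ i, FiniteDimensional F (K i) := fun i ↦
    FiniteDimensional.of_finrank_pos (by have := (hK i).1; omega)
  have hnK : ∀ i, Normal F (K i) := fun i ↦ by
    have hq : Algebra.IsQuadraticExtension F (K i) := ⟨(hK i).1⟩
    infer_instance
  set N : IntermediateField F Ω := (E ⊔ K₀) ⊔ ⨆ i, K i with hN
  have hfdN : FiniteDimensional F N := inferInstance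
  have hnN : Normal F N := inferInstance
  have hGN : IsGalois F N := ⟨⟩
  have hNFN : NumberField N := NumberField.of_module_finite F N
  let _ : Fintype (N ≃ₐ[F] N) := Fintype.ofFinite _
  have hEN : E ≤ N := le_sup_left.trans le_sup_left
  have hK₀N : K₀ ≤ N := le_sup_right.trans le_sup_left
  have hKN : ∀ i, K i ≤ N := fun i ↦ (le_iSup K i).trans le_sup_right
  obtain ⟨s, hodd⟩ := exists_oddAt hGA7 hEN hE ψ hψ
  have h0 : 0 < D := by omega
  obtain ⟨-, ιp₀, -⟩ := hf ⟨0, h0⟩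
  obtain ⟨τ, hτ⟩ := exists_frame (F := F) (N := N) (Ω := Ω) hn
  have hσ : Function.Injective (fun m ↦ (ιp₀.comp (τ m)).comp (algebraMap F N)) := by
    intro i j hij
    apply hτ
    ext y
    apply ιp₀.injective
    exact RingHom.congr_fun hij y
  have hrank := rank_concrete hRG hR3 hFRAME hGA7 hEN hK₀N p L₀ ψ hodd hn hn3 hgood ιp₀
    (fun m ↦ ιp₀.comp (τ m)) hσ
  have hη : ∀ i, ∃ η : (N ≃ₐ[F] N) →* kˣ, IsSign (K i) η := fun i ↦
    exists_isSign k (hKN i) (hK i).1
  choose η hη using hη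
  refine hFIN F N Ω p k ιp₀ L₀ (ψ.comp (resE hEN)) D n η s (fun m ↦ ιp₀.comp (τ m)) hn3 hσ hodd
    (fun i ↦ evenAt_mul (hKN i) (hK i) hodd (hη i)) ?_ (fun i g ↦ (hη i).eq_or g) hrank ?_ hD
  · intro i j hij
    by_contra hne
    exact IsSign.ne (hKN i) (hKN j) (hK i).1 (hK j).1 (hη i) (hη j) (fun h ↦ hne (hinj h)) hij
  · intro i
    obtain ⟨ιinf, ιp, S, hS, hfi⟩ := hf i
    exact rel_concrete hRX hFRAME hEN (hKN i) (hK i) p L₀ ψ (η i) (hη i) hn ιinf ιp S hS hfi _ hσ

/-- Two CM types of one field. -/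
theorem types {k : Type x} [NormedField k] (hTY : S_TY.{u, w, w, w, w, x})
    (hRG : S_RG.{u, w, w, w, w, x})
    (hR3 : S_R3.{u, w, w, x}) (hFRAME : S_FRAME.{u, w, x}) (hGA7 : S_GA7.{u, w, 0})
    {E K₀ : IntermediateField F Ω} [FiniteDimensional F E] [IsGalois F E]
    [FiniteDimensional F K₀] [Normal F K₀] (p : ℕ) [Fact p.Prime] [NormedAlgebra ℚ_[p] k]
    [IsUltrametricDist k] [CompleteSpace k] [IsAlgClosed k] (L₀ : IwasawaLog p k)
    (hE : ∃! v : InfinitePlace F, ∃ w : InfinitePlace E, w.IsComplex ∧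
      w.comap (algebraMap F E) = v)
    (ψ : (E ≃ₐ[F] E) →* kˣ) (hψ : Function.Injective ψ) {n : ℕ}
    (hn : finrank ℚ F = n) (hn3 : 3 ≤ n)
    (hgood : n = 3 ∨ (QuadraticCM K₀ ∧ ∃ (ιinf : Ω →+* ℂ) (ιp : Ω →+* k) (S : Set (K₀ →+* ℂ)),
      IsCMType S ∧ HoldsAt E K₀ p ψ ιinf ιp S)) (K : IntermediateField F Ω)
    (hK : QuadraticCM K) (ιinf : Ω →+* ℂ) (ιp : Ω →+* k) :
    ∃ φ₀ : K →+* ℂ, ∀ S : Set (K →+* ℂ), IsCMType S → HoldsAt E K p ψ ιinf ιp S ∨
      HoldsAt E K p ψ ιinf ιp (symmDiff S {φ₀, ComplexEmbedding.conjugate φ₀}) := by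
  classical
  have hchar : CharZero k := charZero_of_padic p (k := k)
  have hQΩ : Algebra.IsAlgebraic ℚ Ω := Algebra.IsAlgebraic.trans ℚ F Ω
  obtain ⟨hK2, hCM⟩ := id hK
  have hfdK : FiniteDimensional F K := FiniteDimensional.of_finrank_pos (by omega)
  have hnK : Normal F K := by
    have hq : Algebra.IsQuadraticExtension F K := ⟨hK2⟩
    infer_instance
  have hNFK : NumberField K := NumberField.of_module_finite F K
  have hNFE : NumberField E := NumberField.of_module_finite F E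
  have hfdH := finiteDimensional_comp E K
  have hNFH : NumberField (Comp E K) := NumberField.of_module_finite K _
  have hnH := normal_comp E K
  have hGH : IsGalois K (Comp E K) := ⟨⟩
  set N : IntermediateField F Ω := (E ⊔ K₀) ⊔ K with hN
  have hfdN : FiniteDimensional F N := inferInstance
  have hnN : Normal F N := inferInstance
  have hGN : IsGalois F N := ⟨⟩
  have hNFN : NumberField N := NumberField.of_module_finite F N
  let _ : Fintype (N ≃ₐ[F] N) := Fintype.ofFinite _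
  have hEN : E ≤ N := le_sup_left.trans le_sup_left
  have hK₀N : K₀ ≤ N := le_sup_right.trans le_sup_left
  have hKN : K ≤ N := le_sup_right
  obtain ⟨s, hodd⟩ := exists_oddAt hGA7 hEN hE ψ hψ
  obtain ⟨τ, hτ⟩ := exists_frame (F := F) (N := N) (Ω := Ω) hn
  have hσ : Function.Injective (fun m ↦ (ιp.comp (τ m)).comp (algebraMap F N)) := by
    intro i j hij
    apply hτ
    ext y
    apply ιp.injective
    exact RingHom.congr_fun hij y
  have hrank := rank_concrete hRG hR3 hFRAME hGA7 hEN hK₀N p L₀ ψ hodd hn hn3 hgood ιp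
    (fun m ↦ ιp.comp (τ m)) hσ
  obtain ⟨η, hη⟩ := exists_isSign (N := N) k hKN hK2
  obtain ⟨χ₀, hχ₀, -⟩ := exists_chi (E := E) (K := K) ψ
  letI : Algebra K N := algIn hKN
  letI : Algebra (Comp E K) N := algComp hEN hKN
  haveI : IsScalarTower F K N := IsScalarTower.of_algebraMap_eq fun _ ↦ rfl
  haveI : IsScalarTower K (Comp E K) N := IsScalarTower.of_algebraMap_eq fun _ ↦ rfl
  have h0 := compat_theta hEN hKN ψ χ₀ hχ₀
  obtain ⟨φ₀, hφ₀⟩ := hTY F K (Comp E K) N Ω p k ιinf ιp χ₀ L₀ (ψ.comp (resE hEN))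
    (ψ.comp (resE hEN) * η) s n τ hK2 hn hn3 h0 (compat_mul hEN hKN χ₀ _ η hη h0)
    (hη.twist hKN _) (evenAt_mul hKN hK hodd hη) hτ hrank
  refine ⟨φ₀, fun S hS ↦ ?_⟩
  rw [holdsAt_iff hK2 p ψ ιinf ιp S χ₀ L₀ hχ₀, holdsAt_iff hK2 p ψ ιinf ιp _ χ₀ L₀ hχ₀]
  exact hφ₀ S hS

/-- **The theorem**, from the goals. -/
theorem top {k : Type x} [NormedField k] (hTY : S_TY.{u, w, w, w, w, x})
    (hFIN : S_FIN.{u, w, w, x}) (hRX : S_RX.{u, w, w, w, w, x})
    (hRG : S_RG.{u, w, w, w, w, x})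
    (hR3 : S_R3.{u, w, w, x}) (hFRAME : S_FRAME.{u, w, x}) (hGA7 : S_GA7.{u, w, 0})
    {E : IntermediateField F Ω} [FiniteDimensional F E] [IsGalois F E]
    (p : ℕ) [Fact p.Prime] [NormedAlgebra ℚ_[p] k]
    [IsUltrametricDist k] [CompleteSpace k] [IsAlgClosed k]
    (hE : ∃! v : InfinitePlace F, ∃ w : InfinitePlace E, w.IsComplex ∧
      w.comap (algebraMap F E) = v)
    (ψ : (E ≃ₐ[F] E) →* kˣ) (hψ : Function.Injective ψ) (hF : 3 ≤ finrank ℚ F)
    (hgood : finrank ℚ F = 3 ∨ ∃ (K : IntermediateField F Ω) (ιinf : Ω →+* ℂ) (ιp : Ω →+* k)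
      (S : Set (K →+* ℂ)), QuadraticCM K ∧ IsCMType S ∧ HoldsAt E K p ψ ιinf ιp S) :
    {K : IntermediateField F Ω | QuadraticCM K ∧ ∃ (ιinf : Ω →+* ℂ) (ιp : Ω →+* k)
      (S : Set (K →+* ℂ)), IsCMType S ∧ ¬ HoldsAt E K p ψ ιinf ιp S}.encard ≤
        ((finrank ℚ F - 1) ^ 2 : ℕ) ∧
    ∀ K : IntermediateField F Ω, QuadraticCM K → ∀ (ιinf : Ω →+* ℂ) (ιp : Ω →+* k),
      ∃ φ₀ : K →+* ℂ, ∀ S : Set (K →+* ℂ), IsCMType S → HoldsAt E K p ψ ιinf ιp S ∨
        HoldsAt E K p ψ ιinf ιp (symmDiff S {φ₀, ComplexEmbedding.conjugate φ₀}) := by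
  classical
  by_cases hL : Nonempty (IwasawaLog p k)
  · obtain ⟨L₀⟩ := hL
    obtain ⟨K₀, hfd₀, hn₀, hg₀⟩ : ∃ K₀ : IntermediateField F Ω, FiniteDimensional F K₀ ∧
        Normal F K₀ ∧ (finrank ℚ F = 3 ∨ (QuadraticCM K₀ ∧ ∃ (ιinf : Ω →+* ℂ) (ιp : Ω →+* k)
          (S : Set (K₀ →+* ℂ)), IsCMType S ∧ HoldsAt E K₀ p ψ ιinf ιp S)) := by
      rcases hgood with h3 | ⟨K₀, ιinf, ιp, S, hK₀, hS, hg⟩
      · exact ⟨⊥, inferInstance, inferInstance, Or.inl h3⟩
      · have hq : Algebra.IsQuadraticExtension F K₀ := ⟨hK₀.1⟩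
        exact ⟨K₀, FiniteDimensional.of_finrank_pos (by have := hK₀.1; omega), inferInstance,
          Or.inr ⟨hK₀, ιinf, ιp, S, hS, hg⟩⟩
    refine ⟨?_, fun K hK ιinf ιp ↦ types hTY hRG hR3 hFRAME hGA7 p L₀ hE ψ hψ rfl hF hg₀ K hK
      ιinf ιp⟩
    by_contra hcon
    rw [not_le] at hcon
    have h1 : (((finrank ℚ F - 1) ^ 2 + 1 : ℕ) : ℕ∞) ≤ {K : IntermediateField F Ω | QuadraticCM K ∧
        ∃ (ιinf : Ω →+* ℂ) (ιp : Ω →+* k) (S : Set (K →+* ℂ)), IsCMType S ∧
          ¬ HoldsAt E K p ψ ιinf ιp S}.encard := by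
      rw [Nat.cast_add, Nat.cast_one]
      exact Order.add_one_le_of_lt hcon
    obtain ⟨t, ht, htc⟩ := Set.exists_subset_encard_eq h1
    have htf : t.Finite := Set.finite_of_encard_eq_coe htc
    have htn : t.ncard = (finrank ℚ F - 1) ^ 2 + 1 := by
      rw [Set.ncard, htc]
      exact ENat.toNat_natCast _
    have : Fintype t := htf.fintype
    have hcard : Fintype.card t = (finrank ℚ F - 1) ^ 2 + 1 := by
      rw [← htn, Set.ncard_eq_toFinset_card', Set.toFinset_card]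
    let e : Fin ((finrank ℚ F - 1) ^ 2 + 1) ≃ t := (Fintype.equivFinOfCardEq hcard).symm
    exact family hFIN hRX hRG hR3 hFRAME hGA7 p L₀ hE ψ hψ rfl hF hg₀ (fun i ↦ (e i : IntermediateField F Ω))
      (fun i j hij ↦ e.injective (Subtype.ext hij)) (fun i ↦ (ht (e i).2).1)
      (fun i ↦ (ht (e i).2).2) (Nat.lt_succ_self _)
  · have htriv : ∀ (K : IntermediateField F Ω) (ιinf : Ω →+* ℂ) (ιp : Ω →+* k)
        (S : Set (K →+* ℂ)), HoldsAt E K p ψ ιinf ιp S := fun K ιinf ιp S χ L ↦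
      absurd ⟨L⟩ hL
    refine ⟨?_, fun K hK ιinf ιp ↦ ⟨(ιinf.comp (algebraMap K Ω)), fun S _ ↦ Or.inl
      (htriv K ιinf ιp S)⟩⟩
    have h0 : {K : IntermediateField F Ω | QuadraticCM K ∧ ∃ (ιinf : Ω →+* ℂ) (ιp : Ω →+* k)
        (S : Set (K →+* ℂ)), IsCMType S ∧ ¬ HoldsAt E K p ψ ιinf ιp S} = ∅ := by
      rw [Set.eq_empty_iff_forall_notMem]
      rintro K ⟨-, ιinf, ιp, S, -, h⟩
      exact h (htriv K ιinf ιp S)
    rw [h0, Set.encard_empty]
    exact bot_le

end

end Pool.Agent.Helper17.SLD
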